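import Pool.Agent.Helper931_Balance.Step

set_option autoImplicit false
set_option linter.unusedSectionVars false

namespace Pool.Agent.H931

open Finset Classical

variable {V : Type*} [Fintype V] [DecidableEq V]

lemma badp_iff_mem {f : V → Fin 3} {T : Finset (Sym2 V)} {v w : V} (hw : f w ≠ 0) :
    ¬ badp f T s(v, w) := by
  rintro ⟨x, y, hx, hy, -, he, -⟩
  rw [Sym2.eq_iff] at he
  rcases he with ⟨h1, h2⟩ | ⟨h1, h2⟩
  · rw [h2] at hw; exact hw hy
  · rw [h2] at hw; exact hw hx

lemma touch_mk {f : V → Fin 3} {v w : V} (hv : f v = 0) (hvw : v ≠ w) : touch f s(v, w) :=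
  ⟨by simpa using hvw, v, by simp, hv⟩

/-- number of bad pairs -/
lemma bad_card {f : V → Fin 3} {T : Finset (Sym2 V)} (hI : Invp f T) :
    (cU f T : ℝ) * th (cls f 0) (cU f T) ≤
      ((univ.filter (fun e => touch f e ∧ e ∉ T ∧ badp f T e)).card : ℝ) := by
  set X : Finset V := univ.filter (fun v => f v = 0) with hX
  set Y : Finset V := univ.filter (fun v => f v = 0 ∧ sat f T v) with hY
  have hXc : X.card = cls f 0 := rfl
  have hYc : Y.card + cU f T = cls f 0 := by
    rw [← hXc]
    unfold cU
    have : X = Y ∪ univ.filter (fun v => f v = 0 ∧ ¬ sat f T v) := by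
      ext x
      simp only [hX, hY, mem_filter, mem_univ, true_and, mem_union]
      tauto
    rw [this, card_union_of_disjoint]
    rw [disjoint_left]
    intro x hx hx'
    simp only [hY, mem_filter, mem_univ, true_and] at hx hx'
    exact hx'.2 hx.2
  have hsub : X.offDiag.image (Function.uncurry Sym2.mk) \ Y.offDiag.image (Function.uncurry Sym2.mk) ⊆
      univ.filter (fun e => touch f e ∧ e ∉ T ∧ badp f T e) := by
    intro e he
    rw [mem_sdiff] at he
    obtain ⟨he1, he2⟩ := he
    rw [mem_image] at he1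
    obtain ⟨⟨v, w⟩, hvw, rfl⟩ := he1
    rw [mem_offDiag] at hvw
    obtain ⟨hv, hw, hne⟩ := hvw
    simp only [hX, mem_filter, mem_univ, true_and] at hv hw
    have hns : ¬ sat f T v ∨ ¬ sat f T w := by
      by_contra hcon
      push Not at hcon
      apply he2
      rw [mem_image]
      refine ⟨(v, w), ?_, rfl⟩
      rw [mem_offDiag]
      exact ⟨by simp [hY, hv, hcon.1], by simp [hY, hw, hcon.2], hne⟩
    simp only [mem_filter, mem_univ, true_and]
    refine ⟨touch_mk hv hne, ?_, ?_⟩
    · intro hT
      rcases hns with h | h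
      · exact h (hI v w hv hw hne hT)
      · exact h (hI w v hw hv hne.symm (by rwa [Sym2.eq_swap]))
    · rcases hns with h | h
      · exact ⟨v, w, hv, hw, hne, rfl, h⟩
      · exact ⟨w, v, hw, hv, hne.symm, Sym2.eq_swap, h⟩
  have hcard := card_le_card hsub
  have h1 : (X.offDiag.image (Function.uncurry Sym2.mk)).card = (cls f 0).choose 2 := by
    rw [Sym2.card_image_offDiag, hXc]
  have h2 : (Y.offDiag.image (Function.uncurry Sym2.mk)).card = Y.card.choose 2 := by
    rw [Sym2.card_image_offDiag]
  have h3 : (X.offDiag.image (Function.uncurry Sym2.mk)).card - (Y.offDiag.image (Function.uncurry Sym2.mk)).card ≤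
      (X.offDiag.image (Function.uncurry Sym2.mk) \ Y.offDiag.image (Function.uncurry Sym2.mk)).card := le_card_sdiff _ _
  have h4 : (cls f 0).choose 2 ≤ Y.card.choose 2 +
      (univ.filter (fun e => touch f e ∧ e ∉ T ∧ badp f T e)).card := by omega
  have h5 : ((cls f 0).choose 2 : ℝ) ≤ (Y.card.choose 2 : ℝ) +
      ((univ.filter (fun e => touch f e ∧ e ∉ T ∧ badp f T e)).card : ℝ) := by
    exact_mod_cast h4
  rw [Nat.cast_choose_two, Nat.cast_choose_two] at h5
  have h6 : (Y.card : ℝ) = (cls f 0 : ℝ) - cU f T := by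
    rw [← hYc]; push_cast; ring
  rw [h6] at h5
  unfold th
  nlinarith [h5]

/-- the supermartingale step -/
lemma chain_step {f : V → Fin 3} {T : Finset (Sym2 V)} (hb : 1 ≤ cls f 1)
    (hc : 1 ≤ cls f 2) (hcb : cls f 2 ≤ cls f 1) (ha : 1 ≤ cls f 0)
    (hT : ∀ x ∈ T, touch f x) (hI : Invp f T) :
    ∑ e ∈ univ.filter (fun e => touch f e ∧ e ∉ T ∧ ¬ badp f T e), Psi f (insert e T)
      ≤ (((univ.filter (touch f)).card : ℝ) - T.card) * Psi f T := by
  set W := univ.filter (fun e => touch f e ∧ e ∉ T ∧ ¬ badp f T e) with hW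
  set Bd := univ.filter (fun e => touch f e ∧ e ∉ T ∧ badp f T e) with hBd
  have hcard : (W.card : ℝ) + Bd.card = ((univ.filter (touch f)).card : ℝ) - T.card := by
    have h1 : univ.filter (touch f) = T ∪ (W ∪ Bd) := by
      ext x
      simp only [hW, hBd, mem_filter, mem_univ, true_and, mem_union]
      constructor
      · intro hx
        by_cases hxT : x ∈ T
        · exact Or.inl hxT
        · by_cases hxb : badp f T x
          · exact Or.inr (Or.inr ⟨hx, hxT, hxb⟩)
          · exact Or.inr (Or.inl ⟨hx, hxT, hxb⟩)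
      · rintro (h | h | h)
        · exact hT x h
        · exact h.1
        · exact h.1
    have h2 : Disjoint T (W ∪ Bd) := by
      rw [disjoint_left]
      intro x hx hx'
      simp only [hW, hBd, mem_filter, mem_univ, true_and, mem_union] at hx'
      rcases hx' with h | h
      · exact h.2.1 hx
      · exact h.2.1 hx
    have h3 : Disjoint W Bd := by
      rw [disjoint_left]
      intro x hx hx'
      simp only [hW, hBd, mem_filter, mem_univ, true_and] at hx hx'
      exact hx.2.2 hx'.2.2
    rw [h1, card_union_of_disjoint h2, card_union_of_disjoint h3]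
    push_cast; ring
  have hsplit : ∑ e ∈ W, Psi f (insert e T) = ∑ e ∈ W, (Psi f (insert e T) - Psi f T) +
      W.card * Psi f T := by
    rw [sum_sub_distrib, sum_const, nsmul_eq_mul]; ring
  -- the progress pairs
  set P : Finset (V × V) := univ.filter (fun q => f q.1 = 0 ∧ f q.2 ≠ 0 ∧ s(q.1, q.2) ∉ T) with hP
  have hinj : Set.InjOn (fun q : V × V => s(q.1, q.2)) (P : Set (V × V)) := by
    rintro ⟨v, w⟩ h1 ⟨v', w'⟩ h2 h
    simp only [hP, coe_filter, mem_univ, true_and, Set.mem_ofPred_eq] at h1 h2
    simp only [Sym2.eq_iff] at h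
    rcases h with ⟨rfl, rfl⟩ | ⟨h3, h4⟩
    · rfl
    · exfalso; rw [h3] at h1; exact h2.2.1 h1.1
  have hsum : ∑ e ∈ W, (Psi f (insert e T) - Psi f T) =
      ∑ q ∈ P, (Psi f (insert s(q.1, q.2) T) - Psi f T) := by
    rw [← sum_image (g := fun q : V × V => s(q.1, q.2))
      (f := fun e => Psi f (insert e T) - Psi f T) hinj]
    symm
    apply sum_subset
    · intro e he
      rw [mem_image] at he
      obtain ⟨⟨v, w⟩, h1, rfl⟩ := he
      simp only [hP, mem_filter, mem_univ, true_and] at h1
      simp only [hW, mem_filter, mem_univ, true_and]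
      refine ⟨touch_mk h1.1 ?_, h1.2.2, badp_iff_mem h1.2.1⟩
      rintro rfl
      exact h1.2.1 h1.1
    · intro e he he2
      simp only [hW, mem_filter, mem_univ, true_and] at he
      obtain ⟨⟨hd, v, hv, hfv⟩, heT, hbad⟩ := he
      obtain ⟨w, rfl⟩ : ∃ w, e = s(v, w) := Sym2.mem_iff_exists.1 hv
      by_cases hw : f w = 0
      · rw [Psi_insert_same hfv hw, sub_self]
      · exfalso
        apply he2
        rw [mem_image]
        exact ⟨(v, w), by simp [hP, hfv, hw, heT], rfl⟩
  have hfib : ∑ q ∈ P, (Psi f (insert s(q.1, q.2) T) - Psi f T) =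
      ∑ v ∈ univ.filter (fun v => f v = 0), ∑ w ∈ univ.filter (fun w => f w ≠ 0 ∧ s(v, w) ∉ T),
        (Psi f (insert s(v, w) T) - Psi f T) := by
    rw [← sum_finset_product']
    rintro ⟨v, w⟩
    simp only [hP, mem_filter, mem_univ, true_and]
  have hle : ∑ v ∈ univ.filter (fun v => f v = 0),
      ∑ w ∈ univ.filter (fun w => f w ≠ 0 ∧ s(v, w) ∉ T),
        (Psi f (insert s(v, w) T) - Psi f T) ≤
      cU f T * (th (cls f 0) (cU f T) * Psi f T) := by
    calc _ ≤ ∑ v ∈ univ.filter (fun v => f v = 0),
          (if sat f T v then 0 else th (cls f 0) (cU f T) * Psi f T) := by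
          apply sum_le_sum
          intro v hv
          simp only [mem_filter, mem_univ, true_and] at hv
          exact per_vertex hb hc hcb v hv
      _ = _ := by
          rw [← sum_filter_add_sum_filter_not (univ.filter (fun v => f v = 0))
            (fun v => sat f T v)]
          have h1 : ∑ v ∈ (univ.filter (fun v => f v = 0)).filter (fun v => sat f T v),
              (if sat f T v then 0 else th (cls f 0) (cU f T) * Psi f T) = 0 := by
            apply sum_eq_zero
            intro v hv
            rw [mem_filter] at hv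
            rw [if_pos hv.2]
          have h2 : ∑ v ∈ (univ.filter (fun v => f v = 0)).filter (fun v => ¬ sat f T v),
              (if sat f T v then 0 else th (cls f 0) (cU f T) * Psi f T) =
              cU f T * (th (cls f 0) (cU f T) * Psi f T) := by
            rw [sum_congr rfl (g := fun _ => th (cls f 0) (cU f T) * Psi f T)]
            · rw [sum_const, nsmul_eq_mul, filter_filter]
              rfl
            · intro v hv
              rw [mem_filter] at hv
              rw [if_neg hv.2]
          rw [h1, h2, zero_add]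
  have hPsi : 0 ≤ Psi f T := by
    unfold Psi
    exact Gp_nonneg (by exact_mod_cast hb) (by exact_mod_cast hc) ha _ _ _ (cU_le f T)
  have hbc := bad_card (f := f) (T := T) hI
  rw [← hcard, hsplit, hsum, hfib]
  have h7 : (cU f T : ℝ) * th (cls f 0) (cU f T) * Psi f T ≤ Bd.card * Psi f T :=
    mul_le_mul_of_nonneg_right hbc hPsi
  nlinarith [hle, h7]

/-- every vertex of class `0` sees both other classes before its first partner in class `0` -/
def cond {N : ℕ} (f : V → Fin 3) (σ : Sym2 V ≃ Fin N) : Prop :=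
  ∀ v w, v ≠ w → f v = 0 → f w = 0 →
    (∃ u, f u = 1 ∧ σ s(v, u) < σ s(v, w)) ∧ (∃ u, f u = 2 ∧ σ s(v, u) < σ s(v, w))

/-- Kempe connectivity of the last two classes -/
def Kc {N : ℕ} (f : V → Fin 3) (σ : Sym2 V ≃ Fin N) : Prop :=
  ∀ u u', u ≠ u' → f u ≠ 0 → f u = f u' →
    Relation.ReflTransGen (fun x y => f x ≠ 0 ∧ f y ≠ 0 ∧ f x ≠ f y ∧ σ s(x, y) < σ s(u, u')) u u'

lemma Kc_perm {N : ℕ} (f : V → Fin 3) (σ : Sym2 V ≃ Fin N)
    (ρ : Equiv.Perm {x // touch f x}) :
    Kc f ((Equiv.Perm.ofSubtype ρ).trans σ) ↔ Kc f σ := by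
  have h : ∀ x y, f x ≠ 0 → f y ≠ 0 → ((Equiv.Perm.ofSubtype ρ).trans σ) s(x, y) = σ s(x, y) := by
    intro x y hx hy
    rw [Equiv.trans_apply, Equiv.Perm.ofSubtype_apply_of_not_mem]
    rintro ⟨-, v, hv, hfv⟩
    rw [Sym2.mem_iff] at hv
    rcases hv with rfl | rfl
    · exact hx hfv
    · exact hy hfv
  unfold Kc
  constructor
  · intro hK u u' hne hu huu'
    have := hK u u' hne hu huu'
    refine Relation.ReflTransGen.mono ?_ _ _ this
    rintro x y ⟨hx, hy, hxy, hlt⟩
    rw [h x y hx hy, h u u' hu (huu' ▸ hu)] at hlt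
    exact ⟨hx, hy, hxy, hlt⟩
  · intro hK u u' hne hu huu'
    have := hK u u' hne hu huu'
    refine Relation.ReflTransGen.mono ?_ _ _ this
    rintro x y ⟨hx, hy, hxy, hlt⟩
    refine ⟨hx, hy, hxy, ?_⟩
    rw [h x y hx hy, h u u' hu (huu' ▸ hu)]
    exact hlt

theorem chain_count {N : ℕ} (f : V → Fin 3) (hb : 1 ≤ cls f 1)
    (hc : 1 ≤ cls f 2) (hcb : cls f 2 ≤ cls f 1) (ha : 1 ≤ cls f 0) :
    ((univ.filter (fun σ : Sym2 V ≃ Fin N => Kc f σ ∧ cond f σ)).card : ℝ) ≤
      Gp (cls f 0) (cls f 1) (cls f 2) (cls f 0) 0 (cls f 0) *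
        (univ.filter (fun σ : Sym2 V ≃ Fin N => Kc f σ)).card := by
  have hmain := count_sigma_le' (A := Sym2 V) (touch f) (N := N) (Kc f) (Kc_perm f) (badp f)
    (Invp f) (Psi f)
    (by intro v w _ _ _ h; simp at h)
    (by
      intro T e hT hI he heT hb v w hv hw hne hmem
      rw [mem_insert] at hmem
      rcases hmem with h | h
      · by_contra hns
        exact hb ⟨v, w, hv, hw, hne, h.symm, fun hs => hns (sat_mono (subset_insert _ _) hs)⟩
      · exact sat_mono (subset_insert _ _) (hI v w hv hw hne h))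
    (fun T hT hI => chain_step hb hc hcb ha hT hI)
    (by
      intro _
      -- everything is saturated
      have hs : ∀ v, f v = 0 → sat f (univ.filter (touch f)) v := by
        intro v hv
        have h1 : ∃ u, f u = 1 := by
          unfold cls at hb
          obtain ⟨u, hu⟩ := card_pos.1 (Nat.lt_of_lt_of_le Nat.zero_lt_one hb)
          exact ⟨u, by simpa using hu⟩
        have h2 : ∃ u, f u = 2 := by
          unfold cls at hc
          obtain ⟨u, hu⟩ := card_pos.1 (Nat.lt_of_lt_of_le Nat.zero_lt_one hc)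
          exact ⟨u, by simpa using hu⟩
        obtain ⟨u1, hu1⟩ := h1
        obtain ⟨u2, hu2⟩ := h2
        refine ⟨⟨u1, hu1, ?_⟩, ⟨u2, hu2, ?_⟩⟩
        · simp only [mem_filter, mem_univ, true_and]
          apply touch_mk hv
          rintro rfl
          rw [hv] at hu1; exact absurd hu1 (by decide)
        · simp only [mem_filter, mem_univ, true_and]
          apply touch_mk hv
          rintro rfl
          rw [hv] at hu2; exact absurd hu2 (by decide)
      have e0 : c0 f (univ.filter (touch f)) = 0 := by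
        unfold c0
        rw [card_eq_zero, filter_eq_empty_iff]
        rintro v - ⟨hv, h1, _⟩
        exact h1 (hs v hv).1
      have eB : cB f (univ.filter (touch f)) = 0 := by
        unfold cB
        rw [card_eq_zero, filter_eq_empty_iff]
        rintro v - ⟨hv, _, h2⟩
        exact h2 (hs v hv).2
      have eU : cU f (univ.filter (touch f)) = 0 := by
        unfold cU
        rw [card_eq_zero, filter_eq_empty_iff]
        rintro v - ⟨hv, h⟩
        exact h (hs v hv)
      unfold Psi
      rw [e0, eB, eU]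
      simp [Gp, Rp])
  have hP0 : Psi f ∅ = Gp (cls f 0) (cls f 1) (cls f 2) (cls f 0) 0 (cls f 0) := by
    have e0 : c0 f ∅ = cls f 0 := by
      unfold c0 cls
      apply card_filter_same
      intro x
      simp [see]
    have eB : cB f ∅ = 0 := by
      unfold cB
      rw [card_eq_zero, filter_eq_empty_iff]
      rintro v - ⟨hv, ⟨u, _, h⟩, _⟩
      simp at h
    have eU : cU f ∅ = cls f 0 := by
      unfold cU cls
      apply card_filter_same
      intro x
      simp [sat, see]
    unfold Psi
    rw [e0, eB, eU]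
  rw [hP0] at hmain
  refine le_trans ?_ hmain
  have hsub : univ.filter (fun σ : Sym2 V ≃ Fin N => Kc f σ ∧ cond f σ) ⊆
      univ.filter (fun σ : Sym2 V ≃ Fin N => Kc f σ ∧
        ∀ e, touch f e → ¬ badp f (univ.filter (fun g => touch f g ∧ σ g < σ e)) e) := by
    intro σ hσ
    simp only [mem_filter, mem_univ, true_and] at hσ ⊢
    refine ⟨hσ.1, ?_⟩
    rintro e he ⟨v, w, hv, hw, hne, rfl, hns⟩
    apply hns
    obtain ⟨⟨u1, hu1, hl1⟩, ⟨u2, hu2, hl2⟩⟩ := hσ.2 v w hne hv hw
    refine ⟨⟨u1, hu1, ?_⟩, ⟨u2, hu2, ?_⟩⟩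
    · simp only [mem_filter, mem_univ, true_and]
      refine ⟨touch_mk hv ?_, hl1⟩
      rintro rfl
      rw [hv] at hu1; exact absurd hu1 (by decide)
    · simp only [mem_filter, mem_univ, true_and]
      refine ⟨touch_mk hv ?_, hl2⟩
      rintro rfl
      rw [hv] at hu2; exact absurd hu2 (by decide)
  exact_mod_cast card_le_card hsub

end Pool.Agent.H931
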