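import Pool.Agent.Helper931_Balance.Super

set_option autoImplicit false
set_option linter.unusedSectionVars false

namespace Pool.Agent.H931

open Finset Classical

/-- `count_sigma_le` with sets of elements of the ambient type. -/
theorem count_sigma_le' {A : Type*} [Fintype A] [DecidableEq A] (p : A → Prop) {N : ℕ}
    (K : (A ≃ Fin N) → Prop)
    (hK : ∀ (σ : A ≃ Fin N) (ρ : Equiv.Perm {x // p x}),
      K ((Equiv.Perm.ofSubtype ρ).trans σ) ↔ K σ)
    (bad : Finset A → A → Prop)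
    (Inv : Finset A → Prop) (Ψ : Finset A → ℝ)
    (hInv0 : Inv ∅)
    (hInvS : ∀ T e, (∀ x ∈ T, p x) → Inv T → p e → e ∉ T → ¬ bad T e → Inv (insert e T))
    (hstep : ∀ T, (∀ x ∈ T, p x) → Inv T →
      ∑ e ∈ univ.filter (fun e => p e ∧ e ∉ T ∧ ¬ bad T e), Ψ (insert e T)
      ≤ (((univ.filter p).card : ℝ) - T.card) * Ψ T)
    (hend : Inv (univ.filter p) → 1 ≤ Ψ (univ.filter p)) :
    ((univ.filter (fun σ : A ≃ Fin N => K σ ∧
        ∀ e, p e → ¬ bad (univ.filter (fun f => p f ∧ σ f < σ e)) e)).card : ℝ)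
      ≤ Ψ ∅ * (univ.filter (fun σ : A ≃ Fin N => K σ)).card := by
  let emb : {x // p x} ↪ A := Function.Embedding.subtype p
  have hmap : ∀ S : Finset {x // p x}, ∀ x ∈ S.map emb, p x := by
    intro S x hx
    rw [mem_map] at hx
    obtain ⟨y, _, rfl⟩ := hx
    exact y.2
  have hins : ∀ (S : Finset {x // p x}) (e : {x // p x}),
      (insert e S).map emb = insert e.1 (S.map emb) := by
    intro S e
    rw [map_insert]; rfl
  have hmem : ∀ (S : Finset {x // p x}) (e : {x // p x}), e.1 ∈ S.map emb ↔ e ∈ S := by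
    intro S e
    exact mem_map' emb
  have huniv : (univ : Finset {x // p x}).map emb = univ.filter p := by
    ext x
    simp only [mem_map, mem_univ, true_and, mem_filter]
    constructor
    · rintro ⟨y, rfl⟩; exact y.2
    · intro h; exact ⟨⟨x, h⟩, rfl⟩
  have hcard : Fintype.card {x // p x} = (univ.filter p).card := by
    rw [← huniv, card_map, card_univ]
  have h := count_sigma_le p K hK (fun S e => bad (S.map emb) e.1) (fun S => Inv (S.map emb))
    (fun S => Ψ (S.map emb)) (by simpa using hInv0)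
    (by
      intro S e hS heS hb
      rw [hins]
      exact hInvS _ _ (hmap S) hS e.2 (by rwa [hmem]) hb)
    (by
      intro S hS
      have := hstep (S.map emb) (hmap S) hS
      rw [card_map] at this
      rw [hcard]
      refine le_trans (le_of_eq ?_) this
      have hset : (univ.filter (fun e => p e ∧ e ∉ S.map emb ∧ ¬ bad (S.map emb) e)) =
          (Sᶜ.filter (fun e => ¬ bad (S.map emb) e.1)).map emb := by
        ext x
        simp only [mem_filter, mem_univ, true_and, mem_map, mem_compl]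
        constructor
        · rintro ⟨hp, hx, hb⟩
          refine ⟨⟨x, hp⟩, ⟨?_, hb⟩, rfl⟩
          intro hxS
          exact hx ⟨⟨x, hp⟩, hxS, rfl⟩
        · rintro ⟨y, ⟨hy, hb⟩, rfl⟩
          refine ⟨y.2, ?_, hb⟩
          rintro ⟨z, hz, hzy⟩
          exact hy (by rwa [← emb.injective hzy])
      rw [hset, sum_map]
      apply sum_congr rfl
      intro e _
      rw [hins]; rfl)
    (by
      intro hI
      rw [huniv] at hI ⊢
      exact hend hI)
  simp only [map_empty] at h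
  refine le_trans (le_of_eq ?_) h
  congr 2
  ext σ
  simp only [mem_filter, mem_univ, true_and]
  have hseg : ∀ e : {x // p x}, (univ.filter (fun f : {x // p x} => σ f.1 < σ e.1)).map emb =
      univ.filter (fun f => p f ∧ σ f < σ e.1) := by
    intro e
    ext x
    simp only [mem_map, mem_filter, mem_univ, true_and]
    constructor
    · rintro ⟨y, hy, rfl⟩; exact ⟨y.2, hy⟩
    · rintro ⟨hp, hx⟩; exact ⟨⟨x, hp⟩, hx, rfl⟩
  constructor
  · rintro ⟨h1, h2⟩
    refine ⟨h1, fun e => ?_⟩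
    rw [hseg]
    exact h2 e.1 e.2
  · rintro ⟨h1, h2⟩
    refine ⟨h1, fun e he => ?_⟩
    have := h2 ⟨e, he⟩
    rwa [hseg] at this

/-! ### the potential -/

/-- `a - (u+1)/2` -/
noncomputable def th (a : ℝ) (u : ℕ) : ℝ := a - ((u : ℝ) + 1) / 2

noncomputable def al (b c θ : ℝ) : ℝ := c * (b + c + 2 * θ) / ((c + θ) * (b + c + θ))

noncomputable def be (b c θ : ℝ) : ℝ := c * (b + θ) / (b * (c + θ))

noncomputable def Rp (a b : ℝ) (u : ℕ) : ℝ := ∏ k ∈ range u, b / (b + th a (k + 1))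

noncomputable def Gp (a b c : ℝ) (u0 uB u : ℕ) : ℝ :=
  al b c (th a u) ^ u0 * be b c (th a u) ^ uB * Rp a b u

lemma th_nonneg {a : ℕ} {u : ℕ} (hu : u ≤ a) (ha : 1 ≤ a) : 0 ≤ th a u := by
  unfold th
  have h1 : (u : ℝ) ≤ a := by exact_mod_cast hu
  have h2 : (1 : ℝ) ≤ a := by exact_mod_cast ha
  linarith

lemma al_pos {b c θ : ℝ} (hb : 0 < b) (hc : 0 < c) (hθ : 0 ≤ θ) : 0 < al b c θ := by
  unfold al; positivity

lemma be_pos {b c θ : ℝ} (hb : 0 < b) (hc : 0 < c) (hθ : 0 ≤ θ) : 0 < be b c θ := by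
  unfold be; positivity

lemma Rp_pos {a : ℕ} {b : ℝ} (hb : 0 < b) (ha : 1 ≤ a) (u : ℕ) (hu : u ≤ a) : 0 < Rp a b u := by
  unfold Rp
  apply prod_pos
  intro k hk
  have := th_nonneg (a := a) (u := k + 1) (by have := mem_range.1 hk; omega) ha
  positivity

lemma al_anti {b c θ θ' : ℝ} (hb : 0 < b) (hc : 0 < c) (hθ : 0 ≤ θ) (h : θ ≤ θ') :
    al b c θ' ≤ al b c θ := by
  unfold al
  have hθ' : 0 ≤ θ' := hθ.trans h
  rw [div_le_div_iff₀ (by positivity) (by positivity)]
  obtain ⟨d, rfl⟩ : ∃ d, θ' = θ + d := ⟨θ' - θ, by ring⟩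
  have hd : 0 ≤ d := by linarith
  have key : 0 ≤ c * (d * ((b + c) * b + 2 * (b + c) * θ + 2 * θ ^ 2)
      + (b + c + 2 * θ) * d ^ 2) := by positivity
  nlinarith [key]

lemma be_anti {b c θ θ' : ℝ} (hb : 0 < b) (hc : 0 < c) (hcb : c ≤ b) (hθ : 0 ≤ θ) (h : θ ≤ θ') :
    be b c θ' ≤ be b c θ := by
  unfold be
  have hθ' : 0 ≤ θ' := hθ.trans h
  rw [div_le_div_iff₀ (by positivity) (by positivity)]
  obtain ⟨d, rfl⟩ : ∃ d, θ' = θ + d := ⟨θ' - θ, by ring⟩
  have hd : 0 ≤ d := by linarith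
  have key : 0 ≤ c * b * (d * (b - c)) := by
    have : 0 ≤ b - c := by linarith
    positivity
  nlinarith [key]

lemma th_anti (a : ℝ) (u : ℕ) : th a (u + 1) ≤ th a u := by
  unfold th; push_cast; linarith

lemma Rp_succ (a b : ℝ) (u : ℕ) : Rp a b (u + 1) = Rp a b u * (b / (b + th a (u + 1))) := by
  unfold Rp; rw [prod_range_succ]

section
variable {a : ℕ} {b c : ℝ}

lemma Gp_nonneg (hb : 0 < b) (hc : 0 < c) (ha : 1 ≤ a) (u0 uB u : ℕ) (hu : u ≤ a) :
    0 ≤ Gp a b c u0 uB u := by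
  unfold Gp
  have h1 := al_pos hb hc (th_nonneg hu ha)
  have h2 := be_pos hb hc (th_nonneg hu ha)
  have h3 := Rp_pos (a := a) hb ha u hu
  positivity

/-- transitions out of the state `nothing seen` -/
lemma step0 (hb : 0 < b) (hc : 0 < c) (ha : 1 ≤ a) (k uB u : ℕ) (hu : u ≤ a) :
    b * (Gp a b c k (uB + 1) u - Gp a b c (k + 1) uB u)
      + c * (Gp a b c k uB u - Gp a b c (k + 1) uB u)
      ≤ th a u * Gp a b c (k + 1) uB u := by
  have hθ := th_nonneg (a := a) hu ha
  set θ := th a u with hθd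
  have e1 : b * be b c θ + c = (b + c + θ) * al b c θ := by
    unfold be al
    have h1 : c + θ ≠ 0 := by positivity
    have h2 : b + c + θ ≠ 0 := by positivity
    field_simp
    ring
  have e2 : Gp a b c k (uB + 1) u = (al b c θ ^ k * be b c θ ^ uB * Rp a b u) * be b c θ := by
    unfold Gp; rw [pow_succ]; ring
  have e3 : Gp a b c (k + 1) uB u = (al b c θ ^ k * be b c θ ^ uB * Rp a b u) * al b c θ := by
    unfold Gp; rw [pow_succ]; ring
  have e4 : Gp a b c k uB u = (al b c θ ^ k * be b c θ ^ uB * Rp a b u) := by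
    unfold Gp; rfl
  rw [e2, e3, e4]
  set Y := al b c θ ^ k * be b c θ ^ uB * Rp a b u with hY
  have : b * (Y * be b c θ - Y * al b c θ) + c * (Y - Y * al b c θ) - θ * (Y * al b c θ) =
      Y * ((b * be b c θ + c) - (b + c + θ) * al b c θ) := by ring
  rw [e1, sub_self, mul_zero] at this
  linarith

/-- transition out of the state `only B seen` -/
lemma stepB (hb : 0 < b) (hc : 0 < c) (hcb : c ≤ b) (ha : 1 ≤ a) (u0 k u : ℕ) (hu : u + 1 ≤ a) :
    c * (Gp a b c u0 k u - Gp a b c u0 (k + 1) (u + 1))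
      ≤ th a (u + 1) * Gp a b c u0 (k + 1) (u + 1) := by
  have hθ := th_nonneg (a := a) hu ha
  have hθ2 := th_anti (a := a) (u := u)
  have ha1 := al_anti (b := b) (c := c) hb hc hθ hθ2
  have hb1 := be_anti (b := b) (c := c) hb hc hcb hθ hθ2
  have hR := Rp_pos (a := a) hb ha u (by omega)
  have e0 : Gp a b c u0 k u ≤ al b c (th a (u + 1)) ^ u0 * be b c (th a (u + 1)) ^ k *
      Rp a b u := by
    unfold Gp
    have p1 := al_pos hb hc (th_nonneg (a := a) (u := u) (by omega) ha)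
    have p2 := be_pos hb hc (th_nonneg (a := a) (u := u) (by omega) ha)
    have p3 := al_pos hb hc hθ
    gcongr
  set θ := th a (u + 1) with hθd
  have e1 : Gp a b c u0 (k + 1) (u + 1) = (al b c θ ^ u0 * be b c θ ^ k * Rp a b u) *
      (be b c θ * (b / (b + θ))) := by
    unfold Gp
    rw [Rp_succ, pow_succ]
    rw [← hθd]
    ring
  have e2 : (c + θ) * (be b c θ * (b / (b + θ))) = c := by
    unfold be
    have h1 : c + θ ≠ 0 := by positivity
    have h2 : b + θ ≠ 0 := by positivity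
    field_simp
  set Y := al b c θ ^ u0 * be b c θ ^ k * Rp a b u with hY
  rw [e1]
  have e3 : c * Gp a b c u0 k u ≤ c * Y := by gcongr
  have e4 : (c + θ) * (Y * (be b c θ * (b / (b + θ)))) = Y * c := by
    rw [← mul_assoc, mul_comm (c + θ) Y, mul_assoc, e2]
  nlinarith [e3, e4]

/-- transition out of the state `only C seen` -/
lemma stepC (hb : 0 < b) (hc : 0 < c) (hcb : c ≤ b) (ha : 1 ≤ a) (u0 uB u : ℕ) (hu : u + 1 ≤ a) :
    b * (Gp a b c u0 uB u - Gp a b c u0 uB (u + 1))
      ≤ th a (u + 1) * Gp a b c u0 uB (u + 1) := by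
  have hθ := th_nonneg (a := a) hu ha
  have hθ2 := th_anti (a := a) (u := u)
  have ha1 := al_anti (b := b) (c := c) hb hc hθ hθ2
  have hb1 := be_anti (b := b) (c := c) hb hc hcb hθ hθ2
  have hR := Rp_pos (a := a) hb ha u (by omega)
  have e0 : Gp a b c u0 uB u ≤ al b c (th a (u + 1)) ^ u0 * be b c (th a (u + 1)) ^ uB *
      Rp a b u := by
    unfold Gp
    have p1 := al_pos hb hc (th_nonneg (a := a) (u := u) (by omega) ha)
    have p2 := be_pos hb hc (th_nonneg (a := a) (u := u) (by omega) ha)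
    have p3 := al_pos hb hc hθ
    gcongr
  set θ := th a (u + 1) with hθd
  have e1 : Gp a b c u0 uB (u + 1) = (al b c θ ^ u0 * be b c θ ^ uB * Rp a b u) *
      (b / (b + θ)) := by
    unfold Gp
    rw [Rp_succ]
    rw [← hθd]
    ring
  have e2 : (b + θ) * (b / (b + θ)) = b := by
    have h2 : b + θ ≠ 0 := by positivity
    field_simp
  set Y := al b c θ ^ u0 * be b c θ ^ uB * Rp a b u with hY
  rw [e1]
  have e3 : b * Gp a b c u0 uB u ≤ b * Y := by gcongr
  have e4 : (b + θ) * (Y * (b / (b + θ))) = Y * b := by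
    rw [← mul_assoc, mul_comm (b + θ) Y, mul_assoc, e2]
  nlinarith [e3, e4]

end

end Pool.Agent.H931
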