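import Pool.Agent.Helper931_Balance.Bound

set_option autoImplicit false
set_option linter.unusedSectionVars false

namespace Pool.Agent.H931

lemma fin3_aux (i j k i' j' k' : Fin 3) (hi : i ≠ 0) (hj : j ≠ 0) (hk : k ≠ 0)
    (hi' : i' ≠ 0) (hj' : j' ≠ 0) (hk' : k' ≠ 0) (h1 : i = j ↔ i' = j') (h2 : j ≠ k)
    (h3 : j' ≠ k') : i = k ↔ i' = k' := by
  revert h1 h2 h3 hi hj hk hi' hj' hk'
  revert i j k i' j' k'
  decide

lemma fin3_eq (i j i' j' : Fin 3) (hi : i ≠ 0) (hj : j ≠ 0) (hi' : i' ≠ 0) (hj' : j' ≠ 0)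
    (h : i = j ↔ i' = j') (h2 : i' = i) : j' = j := by
  subst h2
  revert h hi hj hi' hj'
  revert i' j j'
  decide

lemma fin3_swap (i j i' j' : Fin 3) (hi : i ≠ 0) (hj : j ≠ 0) (hi' : i' ≠ 0) (hj' : j' ≠ 0)
    (h : i = j ↔ i' = j') (h2 : i' ≠ i) : j' = Equiv.swap 1 2 j := by
  revert h h2 hi hj hi' hj'
  revert i j i' j'
  decide

open Finset Classical

variable {V : Type*} [Fintype V] [DecidableEq V]

/-- the condition describing the final graph of the process run along the order `σ` -/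
def isFinal {N : ℕ} (σ : Sym2 V ≃ Fin N) (H : SimpleGraph V) : Prop :=
  ∀ e : Sym2 V, ¬ e.IsDiag →
    (e ∈ H.edgeSet ↔
      (SimpleGraph.fromEdgeSet
        ({g : Sym2 V | g ∈ H.edgeSet ∧ σ g < σ e} ∪ {e})).Colorable 3)

lemma colorable_of {N : ℕ} {σ : Sym2 V ≃ Fin N} {H : SimpleGraph V} {v w : V} (f' : V → Fin 3)
    (h1 : ∀ x y, H.Adj x y → σ s(x, y) < σ s(v, w) → f' x ≠ f' y) (h2 : f' v ≠ f' w) :
    (SimpleGraph.fromEdgeSet
        ({g : Sym2 V | g ∈ H.edgeSet ∧ σ g < σ s(v, w)} ∪ {s(v, w)})).Colorable 3 := by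
  refine ⟨SimpleGraph.Coloring.mk f' ?_⟩
  intro x y hxy
  rw [SimpleGraph.fromEdgeSet_adj] at hxy
  obtain ⟨h, hne⟩ := hxy
  rcases h with h | h
  · have h' : s(x, y) ∈ H.edgeSet ∧ σ s(x, y) < σ s(v, w) := h
    exact h1 x y (by simpa using h'.1) h'.2
  · have h' : s(x, y) = s(v, w) := h
    rw [Sym2.eq_iff] at h'
    rcases h' with ⟨rfl, rfl⟩ | ⟨rfl, rfl⟩
    · exact h2
    · exact h2.symm

lemma not_adj_same {N : ℕ} {σ : Sym2 V ≃ Fin N} {H : SimpleGraph V} (hH : isFinal σ H)
    {f : V → Fin 3} (hf : ∀ x y, H.Adj x y → f x ≠ f y) {v w : V} (hne : v ≠ w)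
    (hvw : f v = f w) (f' : V → Fin 3)
    (h1 : ∀ x y, H.Adj x y → σ s(x, y) < σ s(v, w) → f' x ≠ f' y) (h2 : f' v ≠ f' w) : False := by
  have h3 := (hH s(v, w) (by simpa using hne)).2 (colorable_of f' h1 h2)
  exact hf v w (by simpa using h3) hvw

lemma cond_of_final {N : ℕ} {σ : Sym2 V ≃ Fin N} {H : SimpleGraph V} (hH : isFinal σ H)
    {f : V → Fin 3} (hf : ∀ x y, H.Adj x y → f x ≠ f y) : cond f σ := by
  have key : ∀ j : Fin 3, j ≠ 0 → ∀ v w, v ≠ w → f v = 0 → f w = 0 →
      ∃ u, f u = j ∧ σ s(v, u) < σ s(v, w) := by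
    intro j hj v w hne hv hw
    by_contra hcon
    push Not at hcon
    have hnb : ∀ y, H.Adj v y → σ s(v, y) < σ s(v, w) → f y ≠ j := by
      intro y _ hlt hy
      exact absurd hlt (not_lt.2 (hcon y hy))
    refine not_adj_same hH hf hne (hv.trans hw.symm) (Function.update f v j) ?_ ?_
    · intro x y hxy hlt
      have hxy' : x ≠ y := hxy.ne
      by_cases hxv : x = v
      · subst hxv
        rw [Function.update_self, Function.update_of_ne hxy'.symm]
        exact (hnb y hxy hlt).symm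
      · by_cases hyv : y = v
        · subst hyv
          rw [Function.update_self, Function.update_of_ne hxv]
          exact hnb x hxy.symm (by rwa [Sym2.eq_swap])
        · rw [Function.update_of_ne hxv, Function.update_of_ne hyv]
          exact hf x y hxy
    · rw [Function.update_self, Function.update_of_ne hne.symm, hw]
      exact hj
  intro v w hne hv hw
  exact ⟨key 1 (by decide) v w hne hv hw, key 2 (by decide) v w hne hv hw⟩

lemma Kc_of_final {N : ℕ} {σ : Sym2 V ≃ Fin N} {H : SimpleGraph V} (hH : isFinal σ H)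
    {f : V → Fin 3} (hf : ∀ x y, H.Adj x y → f x ≠ f y) : Kc f σ := by
  intro u u' hne hu huu'
  by_contra hcon
  set R : V → V → Prop := fun x y => f x ≠ 0 ∧ f y ≠ 0 ∧ f x ≠ f y ∧ σ s(x, y) < σ s(u, u')
    with hR
  have hsymm : ∀ x y, R x y → R y x := by
    rintro x y ⟨h1, h2, h3, h4⟩
    exact ⟨h2, h1, h3.symm, by rwa [Sym2.eq_swap]⟩
  set Z : V → Prop := fun x => Relation.ReflTransGen R u x with hZ
  have hZ0 : ∀ x, Z x → f x ≠ 0 := by
    intro x hx
    induction hx with
    | refl => exact hu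
    | tail _ h _ => exact h.2.1
  have hZstep : ∀ x y, R x y → (Z x ↔ Z y) := by
    intro x y hxy
    exact ⟨fun h => h.tail hxy, fun h => h.tail (hsymm x y hxy)⟩
  have hs12 : ∀ i : Fin 3, i ≠ 0 → Equiv.swap (1 : Fin 3) 2 i ≠ 0 := by decide
  have hs12' : ∀ i : Fin 3, i ≠ 0 → Equiv.swap (1 : Fin 3) 2 i ≠ i := by decide
  refine not_adj_same hH hf hne huu'
    (fun x => if Z x then Equiv.swap (1 : Fin 3) 2 (f x) else f x) ?_ ?_
  · intro x y hxy hlt
    have hfxy := hf x y hxy
    by_cases hx0 : f x = 0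
    · have hZx : ¬ Z x := fun h => hZ0 x h hx0
      have hy0 : f y ≠ 0 := fun h => hfxy (hx0.trans h.symm)
      rw [if_neg hZx, hx0]
      by_cases hZy : Z y
      · rw [if_pos hZy]; exact (hs12 _ hy0).symm
      · rw [if_neg hZy]; exact hy0.symm
    · by_cases hy0 : f y = 0
      · have hZy : ¬ Z y := fun h => hZ0 y h hy0
        rw [if_neg hZy, hy0]
        by_cases hZx : Z x
        · rw [if_pos hZx]; exact hs12 _ hx0
        · rw [if_neg hZx]; exact hx0
      · have hst := hZstep x y ⟨hx0, hy0, hfxy, hlt⟩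
        by_cases hZx : Z x
        · rw [if_pos hZx, if_pos (hst.1 hZx)]
          exact fun h => hfxy ((Equiv.swap (1 : Fin 3) 2).injective h)
        · rw [if_neg hZx, if_neg (fun h => hZx (hst.2 h))]
          exact hfxy
  · rw [if_pos (show Z u from Relation.ReflTransGen.refl), if_neg (show ¬ Z u' from hcon), ← huu']
    exact hs12' _ hu

/-! ### uniqueness of the partition of the complement -/

lemma uniq_aux {N : ℕ} {σ : Sym2 V ≃ Fin N} {f g : V → Fin 3} (hz : ∀ v, f v = 0 ↔ g v = 0)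
    (hK : Kc f σ) (u u' : V) (hne : u ≠ u')
    (IH : ∀ x y, f x ≠ 0 → f y ≠ 0 → σ s(x, y) < σ s(u, u') → (f x = f y ↔ g x = g y))
    (hu : f u ≠ 0) (huu' : f u = f u') : g u = g u' := by
  have h := hK u u' hne hu huu'
  have key : ∀ x, Relation.ReflTransGen (fun x y => f x ≠ 0 ∧ f y ≠ 0 ∧ f x ≠ f y ∧
      σ s(x, y) < σ s(u, u')) u x → f x ≠ 0 ∧ (f u = f x ↔ g u = g x) := by
    intro x hx
    induction hx with
    | refl => exact ⟨hu, by simp⟩
    | @tail b c _ hbc ih =>
      refine ⟨hbc.2.1, ?_⟩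
      have hg : g b ≠ g c := by
        intro hh
        exact hbc.2.2.1 ((IH b c hbc.1 hbc.2.1 hbc.2.2.2).2 hh)
      exact fin3_aux _ _ _ _ _ _ hu ih.1 hbc.2.1 (fun h => hu ((hz u).2 h))
        (fun h => ih.1 ((hz b).2 h)) (fun h => hbc.2.1 ((hz c).2 h)) ih.2 hbc.2.2.1 hg
  exact (key u' h).2.1 huu'

lemma uniq {N : ℕ} {σ : Sym2 V ≃ Fin N} {f g : V → Fin 3} (hz : ∀ v, f v = 0 ↔ g v = 0)
    (hf : Kc f σ) (hg : Kc g σ) : ∀ (n : ℕ) (u u' : V), ((σ s(u, u') : Fin N) : ℕ) = n →
      f u ≠ 0 → f u' ≠ 0 → (f u = f u' ↔ g u = g u') := by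
  intro n
  induction n using Nat.strong_induction_on with
  | _ n IH =>
    intro u u' hn hu hu'
    by_cases hne : u = u'
    · subst hne; simp
    · have hgu : g u ≠ 0 := fun h => hu ((hz u).2 h)
      constructor
      · intro h
        refine uniq_aux hz hf u u' hne ?_ hu h
        intro x y hx hy hlt
        exact IH _ (by rw [← hn]; exact hlt) x y rfl hx hy
      · intro h
        refine uniq_aux (fun v => (hz v).symm) hg u u' hne ?_ hgu h
        intro x y hx hy hlt
        exact (IH _ (by rw [← hn]; exact hlt) x y rfl (fun h => hx ((hz x).1 h))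
          (fun h => hy ((hz y).1 h))).symm

lemma card_Kc_le {N : ℕ} (σ : Sym2 V ≃ Fin N) :
    (univ.filter (fun f : V → Fin 3 => Kc f σ)).card ≤ 2 * 2 ^ Fintype.card V := by
  have h := card_le_mul_card_image (f := fun f : V → Fin 3 => univ.filter (fun v => f v = 0))
    (univ.filter (fun f : V → Fin 3 => Kc f σ)) 2 (by
      intro X hX
      rw [mem_image] at hX
      obtain ⟨f, hf, hfX⟩ := hX
      simp only [mem_filter, mem_univ, true_and] at hf
      have hsub : (univ.filter (fun f : V → Fin 3 => Kc f σ)).filter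
          (fun g => univ.filter (fun v => g v = 0) = X) ⊆
          {f, fun v => Equiv.swap (1 : Fin 3) 2 (f v)} := by
        intro g hg
        simp only [mem_filter, mem_univ, true_and] at hg
        obtain ⟨hKg, hgX⟩ := hg
        have hz : ∀ v, f v = 0 ↔ g v = 0 := by
          intro v
          have : v ∈ univ.filter (fun v => f v = 0) ↔ v ∈ univ.filter (fun v => g v = 0) := by
            rw [hfX, hgX]
          simpa using this
        have hu := uniq hz hf hKg
        rw [mem_insert, mem_singleton]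
        by_cases hex : ∃ u, f u ≠ 0
        · obtain ⟨u, hu0⟩ := hex
          by_cases hgu : g u = f u
          · left
            ext1 v
            by_cases hv : f v = 0
            · rw [hv]; exact (hz v).1 hv
            · exact fin3_eq (f u) (f v) (g u) (g v) hu0 hv (fun h => hu0 ((hz u).2 h))
                (fun h => hv ((hz v).2 h)) (hu _ u v rfl hu0 hv) hgu
          · right
            ext1 v
            by_cases hv : f v = 0
            · rw [hv, (hz v).1 hv]; decide
            · exact fin3_swap (f u) (f v) (g u) (g v) hu0 hv (fun h => hu0 ((hz u).2 h))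
                (fun h => hv ((hz v).2 h)) (hu _ u v rfl hu0 hv) hgu
        · left
          push Not at hex
          ext1 v
          rw [hex v]; exact (hz v).1 (hex v)
      exact (card_le_card hsub).trans card_le_two)
  refine h.trans ?_
  apply Nat.mul_le_mul_left
  calc _ ≤ (univ : Finset (Finset V)).card := card_le_card (subset_univ _)
    _ = 2 ^ Fintype.card V := by rw [card_univ, Fintype.card_finset]

/-- `cls` is at least one for the other classes under `cond` -/
lemma cls_pos_of_cond {N : ℕ} {σ : Sym2 V ≃ Fin N} {f : V → Fin 3} (ha : 2 ≤ cls f 0)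
    (h : cond f σ) : 1 ≤ cls f 1 ∧ 1 ≤ cls f 2 := by
  unfold cls at ha
  obtain ⟨v, hv, w, hw, hne⟩ := one_lt_card.1 (lt_of_lt_of_le Nat.one_lt_two ha)
  simp only [mem_filter, mem_univ, true_and] at hv hw
  obtain ⟨⟨u1, hu1, _⟩, ⟨u2, hu2, _⟩⟩ := h v w hne hv hw
  constructor
  · unfold cls
    exact card_pos.2 ⟨u1, by simp [hu1]⟩
  · unfold cls
    exact card_pos.2 ⟨u2, by simp [hu2]⟩

/-- union bound over all colourings -/
theorem union_count {N : ℕ} (m : ℝ) (hm : 2 ≤ m) (g : ℝ) (hg : 0 ≤ g)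
    (hG : ∀ a b c : ℕ, 1 ≤ b → 1 ≤ c → c ≤ b → m ≤ a → a + b + c = Fintype.card V →
      Gp a b c a 0 a ≤ g) :
    ((univ.filter (fun σ : Sym2 V ≃ Fin N => ∃ H : SimpleGraph V, isFinal σ H ∧
      ∃ c : H.Coloring (Fin 3), ∃ i : Fin 3, m ≤ (Nat.card {v : V // c v = i} : ℝ))).card : ℝ)
      ≤ g * (2 * 2 ^ Fintype.card V) * Fintype.card (Sym2 V ≃ Fin N) := by
  set F : Finset (V → Fin 3) := univ.filter (fun f => m ≤ (cls f 0 : ℝ) ∧ cls f 2 ≤ cls f 1)
    with hF
  have hsub : univ.filter (fun σ : Sym2 V ≃ Fin N => ∃ H : SimpleGraph V, isFinal σ H ∧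
      ∃ c : H.Coloring (Fin 3), ∃ i : Fin 3, m ≤ (Nat.card {v : V // c v = i} : ℝ)) ⊆
      F.biUnion (fun f => univ.filter (fun σ : Sym2 V ≃ Fin N => Kc f σ ∧ cond f σ)) := by
    intro σ hσ
    simp only [mem_filter, mem_univ, true_and] at hσ
    obtain ⟨H, hH, c, i, hi⟩ := hσ
    -- first recolour so that the large class is class 0
    let f0 : V → Fin 3 := fun v => Equiv.swap i 0 (c v)
    have hf0 : ∀ x y, H.Adj x y → f0 x ≠ f0 y := by
      intro x y hxy h
      exact c.valid hxy ((Equiv.swap i 0).injective h)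
    have hcls0 : (cls f0 0 : ℝ) = (Nat.card {v : V // c v = i} : ℝ) := by
      have h1 : cls f0 0 = Nat.card {v : V // c v = i} := by
        unfold cls
        rw [Nat.card_eq_fintype_card, Fintype.card_subtype]
        congr 1
        ext v
        simp only [mem_filter, mem_univ, true_and, f0]
        constructor
        · intro h
          have := congrArg (Equiv.swap i 0) h
          simpa using this
        · intro h
          rw [h]; simp
      rw [h1]
    rw [mem_biUnion]
    by_cases hle : cls f0 2 ≤ cls f0 1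
    · refine ⟨f0, ?_, ?_⟩
      · simp only [hF, mem_filter, mem_univ, true_and]
        exact ⟨by rw [hcls0]; exact hi, hle⟩
      · simp only [mem_filter, mem_univ, true_and]
        exact ⟨Kc_of_final hH hf0, cond_of_final hH hf0⟩
    · let f1 : V → Fin 3 := fun v => Equiv.swap 1 2 (f0 v)
      have hf1 : ∀ x y, H.Adj x y → f1 x ≠ f1 y := by
        intro x y hxy h
        exact hf0 x y hxy ((Equiv.swap 1 2).injective h)
      have e0 : cls f1 0 = cls f0 0 := by
        unfold cls
        congr 1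
        ext v
        simp only [mem_filter, mem_univ, true_and, f1]
        generalize f0 v = j
        revert j; decide
      have e1 : cls f1 1 = cls f0 2 := by
        unfold cls
        congr 1
        ext v
        simp only [mem_filter, mem_univ, true_and, f1]
        generalize f0 v = j
        revert j; decide
      have e2 : cls f1 2 = cls f0 1 := by
        unfold cls
        congr 1
        ext v
        simp only [mem_filter, mem_univ, true_and, f1]
        generalize f0 v = j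
        revert j; decide
      refine ⟨f1, ?_, ?_⟩
      · simp only [hF, mem_filter, mem_univ, true_and]
        rw [e0, e1, e2, hcls0]
        exact ⟨hi, by omega⟩
      · simp only [mem_filter, mem_univ, true_and]
        exact ⟨Kc_of_final hH hf1, cond_of_final hH hf1⟩
  have h1 : ((univ.filter (fun σ : Sym2 V ≃ Fin N => ∃ H : SimpleGraph V, isFinal σ H ∧
      ∃ c : H.Coloring (Fin 3), ∃ i : Fin 3, m ≤ (Nat.card {v : V // c v = i} : ℝ))).card : ℝ)
      ≤ ∑ f ∈ F, ((univ.filter (fun σ : Sym2 V ≃ Fin N => Kc f σ ∧ cond f σ)).card : ℝ) := by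
    have := (card_le_card hsub).trans card_biUnion_le
    exact_mod_cast this
  have h2 : ∀ f ∈ F, ((univ.filter (fun σ : Sym2 V ≃ Fin N => Kc f σ ∧ cond f σ)).card : ℝ) ≤
      g * (univ.filter (fun σ : Sym2 V ≃ Fin N => Kc f σ)).card := by
    intro f hf
    simp only [hF, mem_filter, mem_univ, true_and] at hf
    have ha2 : 2 ≤ cls f 0 := by
      have : (2 : ℝ) ≤ cls f 0 := hm.trans hf.1
      exact_mod_cast this
    by_cases hex : ∃ σ : Sym2 V ≃ Fin N, cond f σ
    · obtain ⟨σ0, hσ0⟩ := hex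
      obtain ⟨hb, hc⟩ := cls_pos_of_cond ha2 hσ0
      have hch := chain_count (N := N) f hb hc hf.2 (by omega)
      refine hch.trans ?_
      apply mul_le_mul_of_nonneg_right _ (by positivity)
      apply hG _ _ _ hb hc hf.2 hf.1
      -- sizes add up
      have : Fintype.card V = ∑ i : Fin 3, cls f i := by
        unfold cls
        rw [← card_univ]
        exact card_eq_sum_card_fiberwise (fun x _ => mem_univ (f x))
      rw [this, Fin.sum_univ_three]
    · have : univ.filter (fun σ : Sym2 V ≃ Fin N => Kc f σ ∧ cond f σ) = ∅ := by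
        rw [filter_eq_empty_iff]
        rintro σ - ⟨_, h⟩
        exact hex ⟨σ, h⟩
      rw [this, card_empty, Nat.cast_zero]
      positivity
  have h3 : ∑ f ∈ F, ((univ.filter (fun σ : Sym2 V ≃ Fin N => Kc f σ ∧ cond f σ)).card : ℝ) ≤
      g * ∑ f : V → Fin 3, ((univ.filter (fun σ : Sym2 V ≃ Fin N => Kc f σ)).card : ℝ) := by
    calc _ ≤ ∑ f ∈ F, g * ((univ.filter (fun σ : Sym2 V ≃ Fin N => Kc f σ)).card : ℝ) :=
          sum_le_sum h2
      _ = g * ∑ f ∈ F, ((univ.filter (fun σ : Sym2 V ≃ Fin N => Kc f σ)).card : ℝ) := by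
          rw [mul_sum]
      _ ≤ _ := by
          apply mul_le_mul_of_nonneg_left _ hg
          apply sum_le_sum_of_subset_of_nonneg (subset_univ _)
          intro f _ _
          positivity
  have h4 : ∑ f : V → Fin 3, (univ.filter (fun σ : Sym2 V ≃ Fin N => Kc f σ)).card =
      ∑ σ : Sym2 V ≃ Fin N, (univ.filter (fun f : V → Fin 3 => Kc f σ)).card := by
    simp only [card_eq_sum_ones, sum_filter]
    rw [sum_comm]
  have h5 : ∑ σ : Sym2 V ≃ Fin N, (univ.filter (fun f : V → Fin 3 => Kc f σ)).card ≤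
      Fintype.card (Sym2 V ≃ Fin N) * (2 * 2 ^ Fintype.card V) := by
    calc _ ≤ ∑ σ : Sym2 V ≃ Fin N, 2 * 2 ^ Fintype.card V :=
          sum_le_sum (fun σ _ => card_Kc_le σ)
      _ = _ := by rw [sum_const, smul_eq_mul, card_univ]
  have h6 : ∑ f : V → Fin 3, ((univ.filter (fun σ : Sym2 V ≃ Fin N => Kc f σ)).card : ℝ) ≤
      Fintype.card (Sym2 V ≃ Fin N) * (2 * 2 ^ Fintype.card V) := by
    have := h4.le.trans h5
    exact_mod_cast this
  refine h1.trans (h3.trans ?_)
  calc _ ≤ g * (Fintype.card (Sym2 V ≃ Fin N) * (2 * 2 ^ Fintype.card V)) :=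
        mul_le_mul_of_nonneg_left h6 hg
    _ = _ := by ring

/-- the union bound in terms of `Nat.card` -/
theorem union_count_nat {N : ℕ} (m : ℝ) (hm : 2 ≤ m) (g : ℝ) (hg : 0 ≤ g)
    (hG : ∀ a b c : ℕ, 1 ≤ b → 1 ≤ c → c ≤ b → m ≤ a → a + b + c = Fintype.card V →
      Gp a b c a 0 a ≤ g) :
    (Nat.card {σ : Sym2 V ≃ Fin N // ∃ H : SimpleGraph V,
      (∀ e : Sym2 V, ¬ e.IsDiag →
        (e ∈ H.edgeSet ↔
          (SimpleGraph.fromEdgeSet
            ({g : Sym2 V | g ∈ H.edgeSet ∧ σ g < σ e} ∪ {e})).Colorable 3)) ∧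
      ∃ c : H.Coloring (Fin 3), ∃ i : Fin 3, m ≤ (Nat.card {v : V // c v = i} : ℝ)} : ℝ)
      ≤ g * (2 * 2 ^ Fintype.card V) * (Nat.card (Sym2 V ≃ Fin N) : ℝ) := by
  have h := union_count (V := V) (N := N) m hm g hg hG
  have e1 : Nat.card {σ : Sym2 V ≃ Fin N // ∃ H : SimpleGraph V, isFinal σ H ∧
      ∃ c : H.Coloring (Fin 3), ∃ i : Fin 3, m ≤ (Nat.card {v : V // c v = i} : ℝ)} =
      (univ.filter (fun σ : Sym2 V ≃ Fin N => ∃ H : SimpleGraph V, isFinal σ H ∧
      ∃ c : H.Coloring (Fin 3), ∃ i : Fin 3, m ≤ (Nat.card {v : V // c v = i} : ℝ))).card :=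
    Nat.subtype_card _ (by intro σ; simp only [mem_filter, mem_univ, true_and])
  have e2 : Nat.card (Sym2 V ≃ Fin N) = Fintype.card (Sym2 V ≃ Fin N) :=
    Nat.card_eq_fintype_card
  rw [← e1, ← e2] at h
  exact h

end Pool.Agent.H931
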