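import Pool.Agent.Helper931_Balance.Chain

set_option autoImplicit false
set_option linter.unusedSectionVars false

namespace Pool.Agent.H931

open Finset

/-- normalised polynomial inequality (`m = 1`) -/
lemma poly1 {s t : ℝ} (hs0 : 0 ≤ s) (hs : s ≤ 481 / 1000) (ht0 : 0 ≤ t) (hts : t ≤ s) :
    4 * s ^ 2 * (s ^ 2 - t ^ 2) ≤
      (68 / 1000) * (1 + s) ^ 2 * (2 - s - (1 - s) * t - t ^ 2) := by
  by_cases h : s ≤ 2 / 5
  · have h1 : (1 - s) * t + t ^ 2 ≤ s := by nlinarith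
    have h2 : (68 / 1000) * (1 + s) ^ 2 * (2 - 2 * s) ≤
        (68 / 1000) * (1 + s) ^ 2 * (2 - s - (1 - s) * t - t ^ 2) := by
      apply mul_le_mul_of_nonneg_left _ (by positivity)
      linarith
    have h3 : (1 : ℝ) ≤ (1 + s) ^ 2 * (1 - s) := by
      nlinarith [mul_nonneg hs0 hs0, mul_nonneg hs0 (mul_nonneg hs0 hs0)]
    have h4 : s ^ 2 ≤ 4 / 25 := by nlinarith
    have h5 : s ^ 2 * s ^ 2 ≤ (4 / 25) * (4 / 25) := by
      apply mul_le_mul h4 h4 (by positivity) (by norm_num)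
    have h6 : 0 ≤ s ^ 2 * t ^ 2 := by positivity
    nlinarith [h2, h3, h5, h6]
  · push Not at h
    have hq : 0 ≤ (s - 2 / 5) * (481 / 1000 - s) :=
      mul_nonneg (by linarith) (by linarith)
    have h1 : (1 + s) ^ 2 * (1 - s) ≤ 1176 / 1000 := by nlinarith [hq, mul_nonneg hs0 hq]
    have h2 : (68 / 1000) * (1 + s) ^ 2 - 4 * s ^ 2 ≤ -(1 / 2) := by nlinarith [hq]
    have hs2 : s ^ 2 ≤ 881 / 1000 * s - 1924 / 10000 := by nlinarith [hq]
    have hs3 : s ^ 3 ≤ 881 / 1000 * (881 / 1000 * s - 1924 / 10000) - 1924 / 10000 * s := by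
      have := mul_nonneg hs0 hq
      nlinarith [this, hq]
    have hs4 : s ^ 2 * s ^ 2 ≤ (881 / 1000 * s - 1924 / 10000) ^ 2 := by
      have h0 : 0 ≤ s ^ 2 := by positivity
      nlinarith [hs2, h0]
    have h3 : 32 / 10000 ≤ (68 / 1000) * (1 + s) ^ 2 * (2 - s) - 4 * s ^ 2 * s ^ 2 := by
      nlinarith [hs2, hs3, hs4, hq]
    have h4 : (68 / 1000) * ((1 + s) ^ 2 * (1 - s)) * t ≤ (68 / 1000) * (1176 / 1000) * t := by
      apply mul_le_mul_of_nonneg_right _ ht0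
      linarith
    have h5 : ((68 / 1000) * (1 + s) ^ 2 - 4 * s ^ 2) * t ^ 2 ≤ -(1 / 2) * t ^ 2 :=
      mul_le_mul_of_nonneg_right h2 (by positivity)
    have h6 : (68 / 1000) * (1176 / 1000) * t - (1 / 2) * t ^ 2 ≤ 32 / 10000 := by
      nlinarith [sq_nonneg (t - 8 / 100), ht0]
    nlinarith [h3, h4, h5, h6]

/-- homogeneous form -/
lemma poly2 {m s t : ℝ} (hm : 0 < m) (hs0 : 0 ≤ s) (hs : s ≤ 481 / 1000 * m) (ht0 : 0 ≤ t)
    (hts : t ≤ s) :
    4 * s ^ 2 * (s ^ 2 - t ^ 2) ≤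
      (68 / 1000) * (m + s) ^ 2 * (2 * m ^ 2 - s * m - (m - s) * t - t ^ 2) := by
  have h := poly1 (s := s / m) (t := t / m) (by positivity)
    (by rw [div_le_iff₀ hm]; exact hs) (by positivity) (by gcongr)
  have e1 : 4 * s ^ 2 * (s ^ 2 - t ^ 2) =
      (4 * (s / m) ^ 2 * ((s / m) ^ 2 - (t / m) ^ 2)) * m ^ 4 := by
    field_simp
  have e2 : (68 / 1000) * (m + s) ^ 2 * (2 * m ^ 2 - s * m - (m - s) * t - t ^ 2) =
      ((68 / 1000) * (1 + s / m) ^ 2 * (2 - s / m - (1 - s / m) * (t / m) - (t / m) ^ 2)) *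
        m ^ 4 := by
    field_simp
  rw [e1, e2]
  exact mul_le_mul_of_nonneg_right h (by positivity)

/-- the base of the exponential bound -/
lemma base_le {a b c : ℝ} (ha : 0 ≤ a) (hc : 0 < c) (hcb : c ≤ b)
    (hbig : 519 / 1000 * (a + b + c) ≤ a) :
    (al b c (a / 2)) ^ 2 * (b ^ 2 / ((b + a) * (b + a / 2))) ≤ 68 / 1000 := by
  have hb : 0 < b := lt_of_lt_of_le hc hcb
  set m := a + b + c with hm
  have hmpos : 0 < m := by positivity
  have hpoly := poly2 (m := m) (s := b + c) (t := b - c) hmpos (by positivity)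
    (by linarith) (by linarith) (by linarith)
  unfold al
  rw [div_pow, div_mul_div_comm, div_le_iff₀ (by positivity)]
  -- reduce to a polynomial inequality
  have h1 : m ^ 2 * ((b + c) ^ 2 - (b - c) ^ 2) ≤ (b + c) ^ 2 * (m ^ 2 - (b - c) ^ 2) := by
    have h0 : (b + c) ^ 2 ≤ m ^ 2 := by
      apply pow_le_pow_left₀ (by positivity)
      linarith
    nlinarith [mul_le_mul_of_nonneg_right h0 (sq_nonneg (b - c))]
  have hd : 0 ≤ (b + c) ^ 2 - (b - c) ^ 2 := by nlinarith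
  have hd2 : 0 ≤ m ^ 2 - (b - c) ^ 2 := by nlinarith
  have h2 : 4 * m ^ 2 * ((b + c) ^ 2 - (b - c) ^ 2) ^ 2 ≤
      4 * (b + c) ^ 2 * ((b + c) ^ 2 - (b - c) ^ 2) * (m ^ 2 - (b - c) ^ 2) := by
    have := mul_le_mul_of_nonneg_right h1 hd
    nlinarith [this]
  have h3 : 4 * (b + c) ^ 2 * ((b + c) ^ 2 - (b - c) ^ 2) * (m ^ 2 - (b - c) ^ 2) ≤
      (68 / 1000) * (m + (b + c)) ^ 2 *
        (2 * m ^ 2 - (b + c) * m - (m - (b + c)) * (b - c) - (b - c) ^ 2) *
          (m ^ 2 - (b - c) ^ 2) :=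
    mul_le_mul_of_nonneg_right hpoly hd2
  have h4 := h2.trans h3
  have e1 : (c * (b + c + 2 * (a / 2))) ^ 2 * b ^ 2 =
      (4 * m ^ 2 * ((b + c) ^ 2 - (b - c) ^ 2) ^ 2) / 64 := by
    rw [hm]; ring
  have e2 : 68 / 1000 * (((c + a / 2) * (b + c + a / 2)) ^ 2 * ((b + a) * (b + a / 2))) =
      ((68 / 1000) * (m + (b + c)) ^ 2 *
        (2 * m ^ 2 - (b + c) * m - (m - (b + c)) * (b - c) - (b - c) ^ 2) *
          (m ^ 2 - (b - c) ^ 2)) / 64 := by
    rw [hm]; ring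
  rw [e1, e2]
  linarith

lemma Rp_sq_le {a : ℕ} {b : ℝ} (hb : 0 < b) (ha : 1 ≤ a) :
    Rp a b a ^ 2 ≤ (b ^ 2 / ((b + (a - 1)) * (b + ((a : ℝ) - 1) / 2))) ^ a := by
  have haR : (1 : ℝ) ≤ a := by exact_mod_cast ha
  have h1 : Rp a b a ^ 2 =
      ∏ k ∈ range a, (b / (b + th a (k + 1))) * (b / (b + th a (a - 1 - k + 1))) := by
    rw [prod_mul_distrib]
    have := prod_range_reflect (fun k => b / (b + th (a : ℝ) (k + 1))) a
    rw [this]
    unfold Rp
    ring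
  rw [h1]
  calc _ ≤ ∏ _k ∈ range a, (b ^ 2 / ((b + (a - 1)) * (b + ((a : ℝ) - 1) / 2))) := by
        apply prod_le_prod
        · intro k hk
          have hk' := mem_range.1 hk
          have t1 := th_nonneg (a := a) (u := k + 1) (by omega) ha
          have t2 := th_nonneg (a := a) (u := a - 1 - k + 1) (by omega) ha
          positivity
        · intro k hk
          have hk' := mem_range.1 hk
          have t1 := th_nonneg (a := a) (u := k + 1) (by omega) ha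
          have t2 := th_nonneg (a := a) (u := a - 1 - k + 1) (by omega) ha
          rw [div_mul_div_comm, ← pow_two]
          apply div_le_div_of_nonneg_left (by positivity)
          · have : 0 ≤ (a : ℝ) - 1 := by linarith
            positivity
          · have e : ((a - 1 - k + 1 : ℕ) : ℝ) = (a : ℝ) - k := by
              have : a - 1 - k + 1 = a - k := by omega
              rw [this, Nat.cast_sub (by omega)]
            have hkR : (k : ℝ) + 1 ≤ a := by exact_mod_cast hk'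
            unfold th
            rw [e]
            push_cast
            have hk0 : (0 : ℝ) ≤ k := by positivity
            nlinarith [mul_nonneg hk0 (show (0 : ℝ) ≤ (a : ℝ) - 1 - k by linarith)]
    _ = _ := by rw [prod_const, card_range]

lemma Gp_sq_le {a b c : ℕ} (ha : 1 ≤ a) (hb : 1 ≤ b) (hc : 1 ≤ c) (hcb : c ≤ b)
    (hbig : (519 : ℝ) / 1000 * (((a : ℝ) - 1) + b + c) ≤ (a : ℝ) - 1) :
    Gp a b c a 0 a ^ 2 ≤ (68 / 1000 : ℝ) ^ a := by
  have haR : (1 : ℝ) ≤ a := by exact_mod_cast ha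
  have hbR : (0 : ℝ) < b := by exact_mod_cast hb
  have hcR : (0 : ℝ) < c := by exact_mod_cast hc
  have hcbR : (c : ℝ) ≤ b := by exact_mod_cast hcb
  have hth : th a a = ((a : ℝ) - 1) / 2 := by unfold th; ring
  have hR := Rp_sq_le (a := a) (b := b) hbR ha
  have e : Gp a b c a 0 a ^ 2 = (al b c (((a : ℝ) - 1) / 2) ^ 2) ^ a * Rp a b a ^ 2 := by
    unfold Gp
    rw [hth, pow_zero, mul_one, mul_pow, ← pow_mul, ← pow_mul, mul_comm a 2]
  rw [e]
  calc _ ≤ (al b c (((a : ℝ) - 1) / 2) ^ 2) ^ a *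
        (b ^ 2 / ((b + (a - 1)) * (b + ((a : ℝ) - 1) / 2))) ^ a :=
        mul_le_mul_of_nonneg_left hR (by positivity)
    _ = (al b c (((a : ℝ) - 1) / 2) ^ 2 *
        (b ^ 2 / ((b + (a - 1)) * (b + ((a : ℝ) - 1) / 2)))) ^ a := by rw [mul_pow]
    _ ≤ _ := by
        apply pow_le_pow_left₀
        · have : 0 ≤ (a : ℝ) - 1 := by linarith
          positivity
        · exact base_le (a := (a : ℝ) - 1) (by linarith) hcR hcbR hbig

/-- final numerical bound -/
lemma Gp_le {a b c n : ℕ} (hn : 481 ≤ n) (hb : 1 ≤ b) (hc : 1 ≤ c) (hcb : c ≤ b)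
    (habc : a + b + c = n) (hbig : (13 : ℝ) / 25 * n ≤ a) :
    Gp a b c a 0 a ≤ ((199 : ℝ) / 400) ^ n := by
  have hnR : (481 : ℝ) ≤ n := by exact_mod_cast hn
  have hsum : (a : ℝ) + b + c = n := by exact_mod_cast habc
  have ha1 : 1 ≤ a := by
    have : (1 : ℝ) ≤ a := by linarith
    exact_mod_cast this
  have hsq := Gp_sq_le ha1 hb hc hcb (by linarith)
  have hbR : (0 : ℝ) < b := by exact_mod_cast hb
  have hcR : (0 : ℝ) < c := by exact_mod_cast hc
  have hG0 : 0 ≤ Gp a b c a 0 a := Gp_nonneg hbR hcR ha1 _ _ _ le_rfl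
  have h13 : 13 * n ≤ 25 * a := by
    have : (13 : ℝ) * n ≤ 25 * a := by linarith
    exact_mod_cast this
  have h1 : (Gp a b c a 0 a) ^ 50 ≤ (((199 : ℝ) / 400) ^ n) ^ 50 := by
    calc (Gp a b c a 0 a) ^ 50 = ((Gp a b c a 0 a) ^ 2) ^ 25 := by rw [← pow_mul]
      _ ≤ ((68 / 1000 : ℝ) ^ a) ^ 25 := pow_le_pow_left₀ (by positivity) hsq _
      _ = (68 / 1000 : ℝ) ^ (25 * a) := by rw [← pow_mul, mul_comm]
      _ ≤ (68 / 1000 : ℝ) ^ (13 * n) := pow_le_pow_of_le_one (by norm_num) (by norm_num) h13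
      _ = ((68 / 1000 : ℝ) ^ 13) ^ n := by rw [pow_mul]
      _ ≤ ((199 / 400 : ℝ) ^ 50) ^ n := by
          apply pow_le_pow_left₀ (by positivity)
          norm_num
      _ = (((199 : ℝ) / 400) ^ n) ^ 50 := by rw [← pow_mul, ← pow_mul, mul_comm]
  exact le_of_pow_le_pow_left₀ (by norm_num) (by positivity) h1

end Pool.Agent.H931
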