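import Pool.Agent.Helper931_Balance.Chain

set_option autoImplicit false
set_option linter.unusedSectionVars false

namespace Pool.Agent.H931

open Finset Classical

variable {V : Type*} [Fintype V] [DecidableEq V]

/-- some pair from `v` to colour class `i` lies in `T` -/
def see (f : V → Fin 3) (T : Finset (Sym2 V)) (v : V) (i : Fin 3) : Prop :=
  ∃ u, f u = i ∧ s(v, u) ∈ T

/-- `v` has seen both other classes -/
def sat (f : V → Fin 3) (T : Finset (Sym2 V)) (v : V) : Prop := see f T v 1 ∧ see f T v 2

/-- pairs touching class `0` -/
def touch (f : V → Fin 3) (e : Sym2 V) : Prop := ¬ e.IsDiag ∧ ∃ v ∈ e, f v = 0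

/-- a pair inside class `0` with an endpoint that has not seen both other classes -/
def badp (f : V → Fin 3) (T : Finset (Sym2 V)) (e : Sym2 V) : Prop :=
  ∃ v w, f v = 0 ∧ f w = 0 ∧ v ≠ w ∧ e = s(v, w) ∧ ¬ sat f T v

def Invp (f : V → Fin 3) (T : Finset (Sym2 V)) : Prop :=
  ∀ v w, f v = 0 → f w = 0 → v ≠ w → s(v, w) ∈ T → sat f T v

noncomputable def c0 (f : V → Fin 3) (T : Finset (Sym2 V)) : ℕ :=
  (univ.filter (fun v => f v = 0 ∧ ¬ see f T v 1 ∧ ¬ see f T v 2)).card

noncomputable def cB (f : V → Fin 3) (T : Finset (Sym2 V)) : ℕ :=
  (univ.filter (fun v => f v = 0 ∧ see f T v 1 ∧ ¬ see f T v 2)).card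

noncomputable def cU (f : V → Fin 3) (T : Finset (Sym2 V)) : ℕ :=
  (univ.filter (fun v => f v = 0 ∧ ¬ sat f T v)).card

noncomputable def cls (f : V → Fin 3) (i : Fin 3) : ℕ := (univ.filter (fun v => f v = i)).card

noncomputable def Psi (f : V → Fin 3) (T : Finset (Sym2 V)) : ℝ :=
  Gp (cls f 0) (cls f 1) (cls f 2) (c0 f T) (cB f T) (cU f T)

lemma see_mono {f : V → Fin 3} {T T' : Finset (Sym2 V)} (h : T ⊆ T') {v : V} {i : Fin 3}
    (hs : see f T v i) : see f T' v i := by
  obtain ⟨u, hu, hT⟩ := hs
  exact ⟨u, hu, h hT⟩

lemma sat_mono {f : V → Fin 3} {T T' : Finset (Sym2 V)} (h : T ⊆ T') {v : V}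
    (hs : sat f T v) : sat f T' v := ⟨see_mono h hs.1, see_mono h hs.2⟩

lemma see_insert {f : V → Fin 3} {T : Finset (Sym2 V)} {v w : V} (hv : f v = 0) (hw : f w ≠ 0)
    {x : V} (hx : f x = 0) (i : Fin 3) :
    see f (insert s(v, w) T) x i ↔ see f T x i ∨ (x = v ∧ f w = i) := by
  constructor
  · rintro ⟨u, hu, hT⟩
    rw [mem_insert] at hT
    rcases hT with h | h
    · right
      rw [Sym2.eq_iff] at h
      rcases h with ⟨h1, h2⟩ | ⟨h1, h2⟩
      · exact ⟨h1, by rw [← h2]; exact hu⟩
      · exfalso; rw [h1] at hx; exact hw hx
    · exact Or.inl ⟨u, hu, h⟩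
  · rintro (h | ⟨rfl, h⟩)
    · exact see_mono (subset_insert _ _) h
    · exact ⟨w, h, mem_insert_self _ _⟩

lemma see_insert_same {f : V → Fin 3} {T : Finset (Sym2 V)} {v w : V} (hv : f v = 0) (hw : f w = 0)
    {x : V} {i : Fin 3} (hi : i ≠ 0) :
    see f (insert s(v, w) T) x i ↔ see f T x i := by
  constructor
  · rintro ⟨u, hu, hT⟩
    rw [mem_insert] at hT
    rcases hT with h | h
    · exfalso
      rw [Sym2.eq_iff] at h
      rcases h with ⟨h1, h2⟩ | ⟨h1, h2⟩
      · rw [h2, hw] at hu; exact hi hu.symm
      · rw [h2, hv] at hu; exact hi hu.symm
    · exact ⟨u, hu, h⟩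
  · exact see_mono (subset_insert _ _)

/-- removing exactly one element from a predicate -/
lemma card_filter_remove (P Q : V → Prop) [DecidablePred P] [DecidablePred Q] (v : V) (hv : P v) (h : ∀ x, Q x ↔ P x ∧ x ≠ v) :
    (univ.filter Q).card + 1 = (univ.filter P).card := by
  have : univ.filter Q = (univ.filter P).erase v := by
    ext x
    simp only [mem_filter, mem_univ, true_and, mem_erase, h x]
    tauto
  rw [this, card_erase_add_one]
  simpa using hv

lemma card_filter_add (P Q : V → Prop) [DecidablePred P] [DecidablePred Q] (v : V) (hv : ¬ P v) (h : ∀ x, Q x ↔ P x ∨ x = v) :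
    (univ.filter Q).card = (univ.filter P).card + 1 := by
  have : univ.filter Q = insert v (univ.filter P) := by
    ext x
    simp only [mem_filter, mem_univ, true_and, mem_insert, h x]
    tauto
  rw [this, card_insert_of_notMem]
  simpa using hv

lemma card_filter_same (P Q : V → Prop) [DecidablePred P] [DecidablePred Q] (h : ∀ x, Q x ↔ P x) :
    (univ.filter Q).card = (univ.filter P).card := by
  congr 1
  ext x
  simp [h x]

lemma Psi_insert_same {f : V → Fin 3} {T : Finset (Sym2 V)} {v w : V} (hv : f v = 0)
    (hw : f w = 0) : Psi f (insert s(v, w) T) = Psi f T := by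
  have e1 : c0 f (insert s(v, w) T) = c0 f T := by
    unfold c0
    apply card_filter_same
    intro x
    simp only [see_insert_same hv hw (show (1 : Fin 3) ≠ 0 by decide),
      see_insert_same hv hw (show (2 : Fin 3) ≠ 0 by decide)]
  have e2 : cB f (insert s(v, w) T) = cB f T := by
    unfold cB
    apply card_filter_same
    intro x
    simp only [see_insert_same hv hw (show (1 : Fin 3) ≠ 0 by decide),
      see_insert_same hv hw (show (2 : Fin 3) ≠ 0 by decide)]
  have e3 : cU f (insert s(v, w) T) = cU f T := by
    unfold cU
    apply card_filter_same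
    intro x
    simp only [sat, see_insert_same hv hw (show (1 : Fin 3) ≠ 0 by decide),
      see_insert_same hv hw (show (2 : Fin 3) ≠ 0 by decide)]
  simp only [Psi, e1, e2, e3]

lemma cU_le (f : V → Fin 3) (T : Finset (Sym2 V)) : cU f T ≤ cls f 0 := by
  unfold cU cls
  apply card_le_card
  intro x hx
  simp only [mem_filter, mem_univ, true_and] at hx ⊢
  exact hx.1

lemma fin3_cases (i : Fin 3) (h : i ≠ 0) : i = 1 ∨ i = 2 := by
  fin_cases i <;> simp_all

/-- effect of one progress pair -/
lemma per_vertex {f : V → Fin 3} {T : Finset (Sym2 V)} (hb : 1 ≤ cls f 1)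
    (hc : 1 ≤ cls f 2) (hcb : cls f 2 ≤ cls f 1) (v : V) (hv : f v = 0) :
    ∑ w ∈ univ.filter (fun w => f w ≠ 0 ∧ s(v, w) ∉ T), (Psi f (insert s(v, w) T) - Psi f T)
      ≤ if sat f T v then 0 else th (cls f 0) (cU f T) * Psi f T := by
  have ha : 1 ≤ cls f 0 := by
    unfold cls
    rw [Nat.one_le_iff_ne_zero, ← Nat.pos_iff_ne_zero, card_pos]
    exact ⟨v, by simp [hv]⟩
  have hbR : (0 : ℝ) < cls f 1 := by exact_mod_cast hb
  have hcR : (0 : ℝ) < cls f 2 := by exact_mod_cast hc
  have hcbR : (cls f 2 : ℝ) ≤ cls f 1 := by exact_mod_cast hcb
  have hU := cU_le f T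
  have hne : ∀ x w : V, f x = 0 → f w ≠ 0 → x ≠ w := by
    intro x w hx hw h; rw [h] at hx; exact hw hx
  -- key facts on `see` after insertion
  have hsee : ∀ w, f w ≠ 0 → ∀ x, f x = 0 → ∀ i, (see f (insert s(v, w) T) x i ↔
      see f T x i ∨ (x = v ∧ f w = i)) := fun w hw x hx i => see_insert hv hw hx i
  by_cases h1 : see f T v 1
  · by_cases h2 : see f T v 2
    · -- saturated
      rw [if_pos ⟨h1, h2⟩]
      apply le_of_eq
      apply sum_eq_zero
      intro w hw
      simp only [mem_filter, mem_univ, true_and] at hw
      have hs1 : ∀ x, f x = 0 → (see f (insert s(v, w) T) x 1 ↔ see f T x 1) := by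
        intro x hx
        rw [hsee w hw.1 x hx]
        constructor
        · rintro (h | ⟨rfl, _⟩)
          · exact h
          · exact h1
        · exact Or.inl
      have hs2 : ∀ x, f x = 0 → (see f (insert s(v, w) T) x 2 ↔ see f T x 2) := by
        intro x hx
        rw [hsee w hw.1 x hx]
        constructor
        · rintro (h | ⟨rfl, _⟩)
          · exact h
          · exact h2
        · exact Or.inl
      have e1 : c0 f (insert s(v, w) T) = c0 f T := by
        unfold c0
        apply card_filter_same
        intro x
        constructor
        · rintro ⟨hx, ha, hb⟩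
          exact ⟨hx, fun h => ha ((hs1 x hx).2 h), fun h => hb ((hs2 x hx).2 h)⟩
        · rintro ⟨hx, ha, hb⟩
          exact ⟨hx, fun h => ha ((hs1 x hx).1 h), fun h => hb ((hs2 x hx).1 h)⟩
      have e2 : cB f (insert s(v, w) T) = cB f T := by
        unfold cB
        apply card_filter_same
        intro x
        constructor
        · rintro ⟨hx, ha, hb⟩
          exact ⟨hx, (hs1 x hx).1 ha, fun h => hb ((hs2 x hx).2 h)⟩
        · rintro ⟨hx, ha, hb⟩
          exact ⟨hx, (hs1 x hx).2 ha, fun h => hb ((hs2 x hx).1 h)⟩
      have e3 : cU f (insert s(v, w) T) = cU f T := by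
        unfold cU
        apply card_filter_same
        intro x
        constructor
        · rintro ⟨hx, ha⟩
          exact ⟨hx, fun h => ha ⟨(hs1 x hx).2 h.1, (hs2 x hx).2 h.2⟩⟩
        · rintro ⟨hx, ha⟩
          exact ⟨hx, fun h => ha ⟨(hs1 x hx).1 h.1, (hs2 x hx).1 h.2⟩⟩
      simp only [Psi, e1, e2, e3, sub_self]
    · -- state B
      rw [if_neg (fun h => h2 h.2)]
      have hB1 : ∃ k, cB f T = k + 1 := by
        refine ⟨cB f T - 1, ?_⟩
        have : 0 < cB f T := by
          unfold cB; rw [card_pos]; exact ⟨v, by simp [hv, h1, h2]⟩
        omega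
      have hU1 : ∃ u, cU f T = u + 1 := by
        refine ⟨cU f T - 1, ?_⟩
        have : 0 < cU f T := by
          unfold cU; rw [card_pos]; exact ⟨v, by simp [hv, sat, h2]⟩
        omega
      obtain ⟨k, hk⟩ := hB1
      obtain ⟨u, hu⟩ := hU1
      have hstep := stepB (a := cls f 0) hbR hcR hcbR ha (c0 f T) k u (by omega)
      have hterm : ∀ w, f w ≠ 0 → Psi f (insert s(v, w) T) - Psi f T =
          if f w = 2 then (Gp (cls f 0) (cls f 1) (cls f 2) (c0 f T) k u -
            Gp (cls f 0) (cls f 1) (cls f 2) (c0 f T) (k + 1) (u + 1)) else 0 := by
        intro w hw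
        rcases fin3_cases _ hw with hw1 | hw2
        · rw [if_neg (by rw [hw1]; decide)]
          have hs : ∀ x, f x = 0 → ∀ i, (see f (insert s(v, w) T) x i ↔ see f T x i) := by
            intro x hx i
            rw [hsee w hw x hx]
            constructor
            · rintro (h | ⟨rfl, h⟩)
              · exact h
              · rw [hw1] at h; rw [← h]; exact h1
            · exact Or.inl
          have e1 : c0 f (insert s(v, w) T) = c0 f T := by
            unfold c0
            apply card_filter_same
            intro x
            by_cases hx : f x = 0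
            · simp [hx, hs x hx]
            · simp [hx]
          have e2 : cB f (insert s(v, w) T) = cB f T := by
            unfold cB
            apply card_filter_same
            intro x
            by_cases hx : f x = 0
            · simp [hx, hs x hx]
            · simp [hx]
          have e3 : cU f (insert s(v, w) T) = cU f T := by
            unfold cU
            apply card_filter_same
            intro x
            by_cases hx : f x = 0
            · simp [hx, sat, hs x hx]
            · simp [hx]
          simp only [Psi, e1, e2, e3, sub_self]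
        · rw [if_pos hw2]
          have hs1 : ∀ x, f x = 0 → (see f (insert s(v, w) T) x 1 ↔ see f T x 1) := by
            intro x hx
            rw [hsee w hw x hx, hw2]
            simp
          have hs2 : ∀ x, f x = 0 → (see f (insert s(v, w) T) x 2 ↔ see f T x 2 ∨ x = v) := by
            intro x hx
            rw [hsee w hw x hx, hw2]
            simp
          have e1 : c0 f (insert s(v, w) T) = c0 f T := by
            unfold c0
            apply card_filter_same
            intro x
            by_cases hx : f x = 0
            · by_cases hxv : x = v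
              · subst hxv; simp [hx, hs1 x hx, h1]
              · simp [hx, hs1 x hx, hs2 x hx, hxv]
            · simp [hx]
          have e2 : cB f (insert s(v, w) T) + 1 = cB f T := by
            unfold cB
            apply card_filter_remove _ _ v ⟨hv, h1, h2⟩
            intro x
            by_cases hx : f x = 0
            · by_cases hxv : x = v
              · subst hxv; simp [hx, hs2 x hx]
              · simp [hx, hs1 x hx, hs2 x hx, hxv]
            · simp [hx]
          have e3 : cU f (insert s(v, w) T) + 1 = cU f T := by
            unfold cU
            apply card_filter_remove _ _ v ⟨hv, fun h => h2 h.2⟩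
            intro x
            by_cases hx : f x = 0
            · by_cases hxv : x = v
              · subst hxv; simp [hx, sat, hs1 x hx, hs2 x hx, h1]
              · simp [hx, sat, hs1 x hx, hs2 x hx, hxv]
            · simp [hx]
          have e2' : cB f (insert s(v, w) T) = k := by omega
          have e3' : cU f (insert s(v, w) T) = u := by omega
          simp only [Psi, e1, e2', e3', hk, hu]
      rw [sum_congr rfl (fun w hw => hterm w (by
        simp only [mem_filter, mem_univ, true_and] at hw; exact hw.1))]
      rw [← sum_filter, sum_const, nsmul_eq_mul]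
      have hset : ((univ.filter (fun w => f w ≠ 0 ∧ s(v, w) ∉ T)).filter (fun w => f w = 2)) =
          univ.filter (fun w => f w = 2) := by
        ext w
        simp only [mem_filter, mem_univ, true_and]
        constructor
        · exact fun h => h.2
        · intro h
          refine ⟨⟨by rw [h]; decide, fun hT => h2 ⟨w, h, hT⟩⟩, h⟩
      rw [hset]
      change (cls f 2 : ℝ) * _ ≤ _
      have hP : Psi f T = Gp (cls f 0) (cls f 1) (cls f 2) (c0 f T) (k + 1) (u + 1) := by
        simp only [Psi, hk, hu]
      rw [hP, hu]
      exact hstep
  · rw [if_neg (fun h => h1 h.1)]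
    have hU1 : ∃ u, cU f T = u + 1 := by
      refine ⟨cU f T - 1, ?_⟩
      have : 0 < cU f T := by
        unfold cU; rw [card_pos]; exact ⟨v, by simp [hv, sat, h1]⟩
      omega
    obtain ⟨u, hu⟩ := hU1
    by_cases h2 : see f T v 2
    · -- state C
      have hstep := stepC (a := cls f 0) hbR hcR hcbR ha (c0 f T) (cB f T) u (by omega)
      have hterm : ∀ w, f w ≠ 0 → Psi f (insert s(v, w) T) - Psi f T =
          if f w = 1 then (Gp (cls f 0) (cls f 1) (cls f 2) (c0 f T) (cB f T) u -
            Gp (cls f 0) (cls f 1) (cls f 2) (c0 f T) (cB f T) (u + 1)) else 0 := by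
        intro w hw
        rcases fin3_cases _ hw with hw1 | hw2
        · rw [if_pos hw1]
          have hs2 : ∀ x, f x = 0 → (see f (insert s(v, w) T) x 2 ↔ see f T x 2) := by
            intro x hx
            rw [hsee w hw x hx, hw1]
            simp
          have hs1 : ∀ x, f x = 0 → (see f (insert s(v, w) T) x 1 ↔ see f T x 1 ∨ x = v) := by
            intro x hx
            rw [hsee w hw x hx, hw1]
            simp
          have e1 : c0 f (insert s(v, w) T) = c0 f T := by
            unfold c0
            apply card_filter_same
            intro x
            by_cases hx : f x = 0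
            · by_cases hxv : x = v
              · subst hxv; simp [hx, hs2 x hx, h2]
              · simp [hx, hs1 x hx, hs2 x hx, hxv]
            · simp [hx]
          have e2 : cB f (insert s(v, w) T) = cB f T := by
            unfold cB
            apply card_filter_same
            intro x
            by_cases hx : f x = 0
            · by_cases hxv : x = v
              · subst hxv; simp [hx, hs2 x hx, h2]
              · simp [hx, hs1 x hx, hs2 x hx, hxv]
            · simp [hx]
          have e3 : cU f (insert s(v, w) T) + 1 = cU f T := by
            unfold cU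
            apply card_filter_remove _ _ v ⟨hv, fun h => h1 h.1⟩
            intro x
            by_cases hx : f x = 0
            · by_cases hxv : x = v
              · subst hxv; simp [hx, sat, hs1 x hx, hs2 x hx, h2]
              · simp [hx, sat, hs1 x hx, hs2 x hx, hxv]
            · simp [hx]
          have e3' : cU f (insert s(v, w) T) = u := by omega
          simp only [Psi, e1, e2, e3', hu]
        · rw [if_neg (by rw [hw2]; decide)]
          have hs : ∀ x, f x = 0 → ∀ i, (see f (insert s(v, w) T) x i ↔ see f T x i) := by
            intro x hx i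
            rw [hsee w hw x hx]
            constructor
            · rintro (h | ⟨rfl, h⟩)
              · exact h
              · rw [hw2] at h; rw [← h]; exact h2
            · exact Or.inl
          have e1 : c0 f (insert s(v, w) T) = c0 f T := by
            unfold c0
            apply card_filter_same
            intro x
            by_cases hx : f x = 0
            · simp [hx, hs x hx]
            · simp [hx]
          have e2 : cB f (insert s(v, w) T) = cB f T := by
            unfold cB
            apply card_filter_same
            intro x
            by_cases hx : f x = 0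
            · simp [hx, hs x hx]
            · simp [hx]
          have e3 : cU f (insert s(v, w) T) = cU f T := by
            unfold cU
            apply card_filter_same
            intro x
            by_cases hx : f x = 0
            · simp [hx, sat, hs x hx]
            · simp [hx]
          simp only [Psi, e1, e2, e3, sub_self]
      rw [sum_congr rfl (fun w hw => hterm w (by
        simp only [mem_filter, mem_univ, true_and] at hw; exact hw.1))]
      rw [← sum_filter, sum_const, nsmul_eq_mul]
      have hset : ((univ.filter (fun w => f w ≠ 0 ∧ s(v, w) ∉ T)).filter (fun w => f w = 1)) =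
          univ.filter (fun w => f w = 1) := by
        ext w
        simp only [mem_filter, mem_univ, true_and]
        constructor
        · exact fun h => h.2
        · intro h
          refine ⟨⟨by rw [h]; decide, fun hT => h1 ⟨w, h, hT⟩⟩, h⟩
      rw [hset]
      change (cls f 1 : ℝ) * _ ≤ _
      have hP : Psi f T = Gp (cls f 0) (cls f 1) (cls f 2) (c0 f T) (cB f T) (u + 1) := by
        simp only [Psi, hu]
      rw [hP, hu]
      exact hstep
    · -- state 0
      have h01 : ∃ k, c0 f T = k + 1 := by
        refine ⟨c0 f T - 1, ?_⟩
        have : 0 < c0 f T := by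
          unfold c0; rw [card_pos]; exact ⟨v, by simp [hv, h1, h2]⟩
        omega
      obtain ⟨k, hk⟩ := h01
      have hstep := step0 (a := cls f 0) hbR hcR ha k (cB f T) (cU f T) hU
      have hterm : ∀ w, f w ≠ 0 → Psi f (insert s(v, w) T) - Psi f T =
          (if f w = 1 then (Gp (cls f 0) (cls f 1) (cls f 2) k (cB f T + 1) (cU f T) -
            Gp (cls f 0) (cls f 1) (cls f 2) (k + 1) (cB f T) (cU f T)) else 0) +
          (if f w = 2 then (Gp (cls f 0) (cls f 1) (cls f 2) k (cB f T) (cU f T) -
            Gp (cls f 0) (cls f 1) (cls f 2) (k + 1) (cB f T) (cU f T)) else 0) := by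
        intro w hw
        rcases fin3_cases _ hw with hw1 | hw2
        · rw [if_pos hw1, if_neg (by rw [hw1]; decide), add_zero]
          have hs2 : ∀ x, f x = 0 → (see f (insert s(v, w) T) x 2 ↔ see f T x 2) := by
            intro x hx
            rw [hsee w hw x hx, hw1]
            simp
          have hs1 : ∀ x, f x = 0 → (see f (insert s(v, w) T) x 1 ↔ see f T x 1 ∨ x = v) := by
            intro x hx
            rw [hsee w hw x hx, hw1]
            simp
          have e1 : c0 f (insert s(v, w) T) + 1 = c0 f T := by
            unfold c0
            apply card_filter_remove _ _ v ⟨hv, h1, h2⟩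
            intro x
            by_cases hx : f x = 0
            · by_cases hxv : x = v
              · subst hxv; simp [hx, hs1 x hx]
              · simp [hx, hs1 x hx, hs2 x hx, hxv]
            · simp [hx]
          have e2 : cB f (insert s(v, w) T) = cB f T + 1 := by
            unfold cB
            apply card_filter_add _ _ v (fun h => h1 h.2.1)
            intro x
            by_cases hx : f x = 0
            · by_cases hxv : x = v
              · subst hxv; simp [hx, hs1 x hx, hs2 x hx, h2]
              · simp [hx, hs1 x hx, hs2 x hx, hxv]
            · have hxv : x ≠ v := fun h => hx (h ▸ hv)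
              simp [hx, hxv]
          have e3 : cU f (insert s(v, w) T) = cU f T := by
            unfold cU
            apply card_filter_same
            intro x
            by_cases hx : f x = 0
            · by_cases hxv : x = v
              · subst hxv; simp [hx, sat, hs2 x hx, h2]
              · simp [hx, sat, hs1 x hx, hs2 x hx, hxv]
            · simp [hx]
          have e1' : c0 f (insert s(v, w) T) = k := by omega
          simp only [Psi, e1', e2, e3, hk]
        · rw [if_neg (by rw [hw2]; decide), if_pos hw2, zero_add]
          have hs1 : ∀ x, f x = 0 → (see f (insert s(v, w) T) x 1 ↔ see f T x 1) := by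
            intro x hx
            rw [hsee w hw x hx, hw2]
            simp
          have hs2 : ∀ x, f x = 0 → (see f (insert s(v, w) T) x 2 ↔ see f T x 2 ∨ x = v) := by
            intro x hx
            rw [hsee w hw x hx, hw2]
            simp
          have e1 : c0 f (insert s(v, w) T) + 1 = c0 f T := by
            unfold c0
            apply card_filter_remove _ _ v ⟨hv, h1, h2⟩
            intro x
            by_cases hx : f x = 0
            · by_cases hxv : x = v
              · subst hxv; simp [hx, hs2 x hx]
              · simp [hx, hs1 x hx, hs2 x hx, hxv]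
            · simp [hx]
          have e2 : cB f (insert s(v, w) T) = cB f T := by
            unfold cB
            apply card_filter_same
            intro x
            by_cases hx : f x = 0
            · by_cases hxv : x = v
              · subst hxv; simp [hx, hs1 x hx, h1]
              · simp [hx, hs1 x hx, hs2 x hx, hxv]
            · simp [hx]
          have e3 : cU f (insert s(v, w) T) = cU f T := by
            unfold cU
            apply card_filter_same
            intro x
            by_cases hx : f x = 0
            · by_cases hxv : x = v
              · subst hxv; simp [hx, sat, hs1 x hx, h1]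
              · simp [hx, sat, hs1 x hx, hs2 x hx, hxv]
            · simp [hx]
          have e1' : c0 f (insert s(v, w) T) = k := by omega
          simp only [Psi, e1', e2, e3, hk]
      rw [sum_congr rfl (fun w hw => hterm w (by
        simp only [mem_filter, mem_univ, true_and] at hw; exact hw.1))]
      rw [sum_add_distrib, ← sum_filter, ← sum_filter, sum_const, sum_const, nsmul_eq_mul,
        nsmul_eq_mul]
      have hset1 : ((univ.filter (fun w => f w ≠ 0 ∧ s(v, w) ∉ T)).filter (fun w => f w = 1)) =
          univ.filter (fun w => f w = 1) := by
        ext w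
        simp only [mem_filter, mem_univ, true_and]
        constructor
        · exact fun h => h.2
        · intro h
          refine ⟨⟨by rw [h]; decide, fun hT => h1 ⟨w, h, hT⟩⟩, h⟩
      have hset2 : ((univ.filter (fun w => f w ≠ 0 ∧ s(v, w) ∉ T)).filter (fun w => f w = 2)) =
          univ.filter (fun w => f w = 2) := by
        ext w
        simp only [mem_filter, mem_univ, true_and]
        constructor
        · exact fun h => h.2
        · intro h
          refine ⟨⟨by rw [h]; decide, fun hT => h2 ⟨w, h, hT⟩⟩, h⟩
      rw [hset1, hset2]
      change (cls f 1 : ℝ) * _ + (cls f 2 : ℝ) * _ ≤ _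
      have hP : Psi f T = Gp (cls f 0) (cls f 1) (cls f 2) (k + 1) (cB f T) (cU f T) := by
        simp only [Psi, hk]
      rw [hP]
      exact hstep

end Pool.Agent.H931
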