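import Mathlib

set_option autoImplicit false
set_option linter.unusedSectionVars false

namespace Pool.Agent.H931

open Finset Classical

variable {E : Type*} [Fintype E] [DecidableEq E]

/-- the set of the first `t` elements -/
noncomputable def initSeg {N : ℕ} (τ : E ≃ Fin N) (t : ℕ) : Finset E :=
  univ.filter (fun f => (τ f : ℕ) < t)

/-- nothing bad happens among the first `t` elements -/
def goodUpTo {N : ℕ} (bad : Finset E → E → Prop) (τ : E ≃ Fin N) (t : ℕ) : Prop :=
  ∀ e, (τ e : ℕ) < t → ¬ bad (initSeg τ (τ e)) e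

lemma mem_initSeg {N : ℕ} (τ : E ≃ Fin N) (t : ℕ) (e : E) :
    e ∈ initSeg τ t ↔ (τ e : ℕ) < t := by
  simp [initSeg]

lemma initSeg_zero {N : ℕ} (τ : E ≃ Fin N) : initSeg τ 0 = ∅ := by
  simp [initSeg]

lemma initSeg_top {N : ℕ} (τ : E ≃ Fin N) : initSeg τ N = univ := by
  ext e; simp [initSeg]

lemma initSeg_succ {N : ℕ} (τ : E ≃ Fin N) (t : ℕ) (ht : t < N) :
    initSeg τ (t + 1) = insert (τ.symm ⟨t, ht⟩) (initSeg τ t) := by
  ext e
  simp only [initSeg, mem_filter, mem_univ, true_and, mem_insert]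
  constructor
  · intro h
    rcases Nat.lt_succ_iff_lt_or_eq.mp h with h | h
    · exact Or.inr h
    · left
      rw [Equiv.eq_symm_apply]
      exact Fin.ext h
  · rintro (h | h)
    · subst h; simp
    · omega

lemma card_initSeg {N : ℕ} (τ : E ≃ Fin N) (t : ℕ) (ht : t ≤ N) : (initSeg τ t).card = t := by
  induction t with
  | zero => simp [initSeg_zero]
  | succ t ih =>
    rw [initSeg_succ τ t (by omega), card_insert_of_notMem, ih (by omega)]
    simp [initSeg]

lemma goodUpTo_succ {N : ℕ} (bad : Finset E → E → Prop) (τ : E ≃ Fin N) (t : ℕ) (ht : t < N) :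
    goodUpTo bad τ (t + 1) ↔ goodUpTo bad τ t ∧ ¬ bad (initSeg τ t) (τ.symm ⟨t, ht⟩) := by
  constructor
  · intro h
    refine ⟨fun e he => h e (by omega), ?_⟩
    have := h (τ.symm ⟨t, ht⟩) (by simp)
    simpa using this
  · rintro ⟨h1, h2⟩ e he
    rcases Nat.lt_succ_iff_lt_or_eq.mp he with h | h
    · exact h1 e h
    · have : e = τ.symm ⟨t, ht⟩ := by
        rw [Equiv.eq_symm_apply]; exact Fin.ext h
      subst this
      simpa using h2

lemma inv_of_good {N : ℕ} (bad : Finset E → E → Prop) (Inv : Finset E → Prop) (hInv0 : Inv ∅)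
    (hInvS : ∀ S e, Inv S → e ∉ S → ¬ bad S e → Inv (insert e S)) (τ : E ≃ Fin N) (t : ℕ)
    (ht : t ≤ N) (hg : goodUpTo bad τ t) : Inv (initSeg τ t) := by
  induction t with
  | zero => simpa [initSeg_zero] using hInv0
  | succ t ih =>
    rw [goodUpTo_succ bad τ t (by omega)] at hg
    rw [initSeg_succ τ t (by omega)]
    refine hInvS _ _ (ih (by omega) hg.1) ?_ hg.2
    simp [initSeg]

lemma initSeg_swap {N : ℕ} (τ : E ≃ Fin N) (t : ℕ) (ht : t < N) (j : Fin N) (hj : t ≤ (j : ℕ))
    (s : ℕ) (hs : s ≤ t) :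
    initSeg (τ.trans (Equiv.swap ⟨t, ht⟩ j)) s = initSeg τ s := by
  ext e
  rw [mem_initSeg, mem_initSeg, Equiv.trans_apply]
  by_cases h1 : τ e = ⟨t, ht⟩
  · rw [h1, Equiv.swap_apply_left]
    simp only [show ¬ (t < s) by omega, show ¬ ((j : ℕ) < s) by omega]
  · by_cases h2 : τ e = j
    · rw [h2, Equiv.swap_apply_right]
      simp only [show ¬ (t < s) by omega, show ¬ ((j : ℕ) < s) by omega]
    · rw [Equiv.swap_apply_of_ne_of_ne h1 h2]

lemma goodUpTo_swap {N : ℕ} (bad : Finset E → E → Prop) (τ : E ≃ Fin N) (t : ℕ) (ht : t < N)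
    (j : Fin N) (hj : t ≤ (j : ℕ)) :
    goodUpTo bad (τ.trans (Equiv.swap ⟨t, ht⟩ j)) t ↔ goodUpTo bad τ t := by
  have key : ∀ e, (((τ.trans (Equiv.swap ⟨t, ht⟩ j)) e : Fin N) : ℕ) < t ↔ (τ e : ℕ) < t := by
    intro e
    have := initSeg_swap τ t ht j hj t le_rfl
    rw [← mem_initSeg, this, mem_initSeg]
  have key2 : ∀ e, (τ e : ℕ) < t → (τ.trans (Equiv.swap ⟨t, ht⟩ j)) e = τ e := by
    intro e he
    have h1 : τ e ≠ ⟨t, ht⟩ := by
      intro h; rw [h] at he; simp at he
    have h2 : τ e ≠ j := by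
      intro h; rw [h] at he; omega
    simp [Equiv.swap_apply_of_ne_of_ne h1 h2]
  constructor
  · intro h e he
    have := h e ((key e).2 he)
    rw [key2 e he, initSeg_swap τ t ht j hj _ (by omega)] at this
    exact this
  · intro h e he
    have he' := (key e).1 he
    rw [key2 e he', initSeg_swap τ t ht j hj _ (by omega)]
    exact h e he'

/-- Counting lemma (a supermartingale bound for a uniformly random order). -/
theorem count_le (bad : Finset E → E → Prop)
    (Inv : Finset E → Prop) (Φ : Finset E → ℝ)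
    (hInv0 : Inv ∅)
    (hInvS : ∀ S e, Inv S → e ∉ S → ¬ bad S e → Inv (insert e S))
    (hstep : ∀ S, Inv S → ∑ e ∈ Sᶜ with ¬ bad S e, Φ (insert e S)
      ≤ ((Fintype.card E : ℝ) - S.card) * Φ S)
    (hend : Inv univ → 1 ≤ Φ univ) :
    ((univ.filter (fun τ : E ≃ Fin (Fintype.card E) =>
        goodUpTo bad τ (Fintype.card E))).card : ℝ)
      ≤ (Fintype.card E).factorial * Φ ∅ := by
  set N := Fintype.card E with hN
  let M : ℕ → ℝ := fun t => ∑ τ : E ≃ Fin N, if goodUpTo bad τ t then Φ (initSeg τ t) else 0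
  have hM0 : M 0 = N.factorial * Φ ∅ := by
    have : ∀ τ : E ≃ Fin N, (if goodUpTo bad τ 0 then Φ (initSeg τ 0) else 0) = Φ ∅ := by
      intro τ
      rw [if_pos, initSeg_zero]
      intro e he; omega
    simp only [M, this, sum_const, card_univ, nsmul_eq_mul]
    rw [Fintype.card_equiv (Fintype.equivFin E)]
  have hMstep : ∀ t, t < N → M (t + 1) ≤ M t := by
    intro t ht
    have hpos : (0 : ℝ) < (N : ℝ) - t := by
      have : (t : ℝ) < N := by exact_mod_cast ht
      linarith
    let J : Finset (Fin N) := univ.filter (fun j => t ≤ (j : ℕ))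
    have hJcard : (J.card : ℝ) = (N : ℝ) - t := by
      have h1 : J = Finset.Ici (⟨t, ht⟩ : Fin N) := by
        ext j; simp [J, Fin.le_def]
      rw [h1, Fin.card_Ici]
      simp only
      rw [Nat.cast_sub (by omega)]
    have h1 : ∀ j ∈ J, M (t + 1) = ∑ τ : E ≃ Fin N,
        (if goodUpTo bad τ t ∧ ¬ bad (initSeg τ t) (τ.symm j) then
          Φ (insert (τ.symm j) (initSeg τ t)) else 0) := by
      intro j hj
      have hj' : t ≤ (j : ℕ) := by simpa [J] using hj
      have hbij : Function.Bijective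
          (fun τ : E ≃ Fin N => τ.trans (Equiv.swap (⟨t, ht⟩ : Fin N) j)) := by
        apply Function.Involutive.bijective
        intro τ
        ext e; simp
      have := hbij.sum_comp (fun τ : E ≃ Fin N =>
        if goodUpTo bad τ (t + 1) then Φ (initSeg τ (t + 1)) else 0)
      rw [show M (t + 1) = ∑ τ : E ≃ Fin N,
        (if goodUpTo bad τ (t + 1) then Φ (initSeg τ (t + 1)) else 0) from rfl, ← this]
      apply sum_congr rfl
      intro τ _
      have e1 : (τ.trans (Equiv.swap (⟨t, ht⟩ : Fin N) j)).symm ⟨t, ht⟩ = τ.symm j := by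
        simp
      rw [initSeg_succ _ t ht, initSeg_swap τ t ht j hj' t le_rfl, e1]
      simp only [goodUpTo_succ bad _ t ht, goodUpTo_swap bad τ t ht j hj',
        initSeg_swap τ t ht j hj' t le_rfl, e1]
    have h2 : ((N : ℝ) - t) * M (t + 1) ≤ ((N : ℝ) - t) * M t := by
      calc ((N : ℝ) - t) * M (t + 1) = ∑ j ∈ J, M (t + 1) := by
            rw [sum_const, nsmul_eq_mul, hJcard]
        _ = ∑ j ∈ J, ∑ τ : E ≃ Fin N,
            (if goodUpTo bad τ t ∧ ¬ bad (initSeg τ t) (τ.symm j) then
              Φ (insert (τ.symm j) (initSeg τ t)) else 0) := sum_congr rfl h1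
        _ = ∑ τ : E ≃ Fin N, ∑ j ∈ J,
            (if goodUpTo bad τ t ∧ ¬ bad (initSeg τ t) (τ.symm j) then
              Φ (insert (τ.symm j) (initSeg τ t)) else 0) := sum_comm
        _ ≤ ∑ τ : E ≃ Fin N, ((N : ℝ) - t) *
            (if goodUpTo bad τ t then Φ (initSeg τ t) else 0) := by
            apply sum_le_sum
            intro τ _
            by_cases hg : goodUpTo bad τ t
            · simp only [hg, true_and, if_true]
              have hInv := inv_of_good bad Inv hInv0 hInvS τ t ht.le hg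
              have hs := hstep _ hInv
              rw [card_initSeg τ t ht.le] at hs
              refine le_trans (le_of_eq ?_) hs
              have himg : (initSeg τ t)ᶜ = J.image τ.symm := by
                ext e
                simp only [initSeg, mem_compl, mem_filter, mem_univ, true_and, not_lt, mem_image, J]
                constructor
                · intro h; exact ⟨τ e, h, by simp⟩
                · rintro ⟨j, hj, rfl⟩; simpa using hj
              have hR : ∑ e ∈ (initSeg τ t)ᶜ with ¬ bad (initSeg τ t) e,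
                  Φ (insert e (initSeg τ t)) = ∑ e ∈ (initSeg τ t)ᶜ,
                  if ¬ bad (initSeg τ t) e then Φ (insert e (initSeg τ t)) else 0 :=
                sum_filter _ _
              rw [hR, himg, sum_image (fun x _ y _ h => τ.symm.injective h)]
            · simp [hg]
        _ = ((N : ℝ) - t) * M t := by rw [← mul_sum]
    exact le_of_mul_le_mul_left h2 hpos
  have hMN : M N ≤ M 0 := by
    have : ∀ t, t ≤ N → M t ≤ M 0 := by
      intro t
      induction t with
      | zero => intro _; exact le_rfl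
      | succ t ih => intro h; exact (hMstep t (by omega)).trans (ih (by omega))
    exact this N le_rfl
  have hcount : ((univ.filter (fun τ : E ≃ Fin N => goodUpTo bad τ N)).card : ℝ) ≤ M N := by
    rw [card_eq_sum_ones, Nat.cast_sum, sum_filter]
    apply sum_le_sum
    intro τ _
    by_cases hg : goodUpTo bad τ N
    · have hInv := inv_of_good bad Inv hInv0 hInvS τ N le_rfl hg
      rw [initSeg_top] at hInv
      simp only [hg, if_true, initSeg_top, Nat.cast_one]
      exact hend hInv
    · simp [hg]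
  calc _ ≤ M N := hcount
    _ ≤ M 0 := hMN
    _ = _ := hM0

theorem count_perm_le (ι : E → ℕ) (hι : Function.Injective ι)
    (bad : Finset E → E → Prop)
    (Inv : Finset E → Prop) (Φ : Finset E → ℝ)
    (hInv0 : Inv ∅)
    (hInvS : ∀ S e, Inv S → e ∉ S → ¬ bad S e → Inv (insert e S))
    (hstep : ∀ S, Inv S → ∑ e ∈ Sᶜ with ¬ bad S e, Φ (insert e S)
      ≤ ((Fintype.card E : ℝ) - S.card) * Φ S)
    (hend : Inv univ → 1 ≤ Φ univ) :
    ((univ.filter (fun ρ : Equiv.Perm E =>
        ∀ e, ¬ bad (univ.filter (fun f => ι (ρ f) < ι (ρ e))) e)).card : ℝ)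
      ≤ (Fintype.card E).factorial * Φ ∅ := by
  let _ : LinearOrder E := LinearOrder.lift' ι hι
  let τ0 : E ≃ Fin (Fintype.card E) := (monoEquivOfFin E rfl).symm.toEquiv
  have hτ0 : ∀ x y, τ0 x < τ0 y ↔ ι x < ι y := by
    intro x y
    exact (monoEquivOfFin E rfl).symm.lt_iff_lt
  have hmain := count_le bad Inv Φ hInv0 hInvS hstep hend
  refine le_trans (le_of_eq ?_) hmain
  congr 1
  apply card_bij (fun (ρ : Equiv.Perm E) _ => ρ.trans τ0)
  · intro ρ hρ
    simp only [mem_filter, mem_univ, true_and] at hρ ⊢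
    intro e _
    have h1 : initSeg (ρ.trans τ0) ((ρ.trans τ0) e) =
        univ.filter (fun f => ι (ρ f) < ι (ρ e)) := by
      ext f
      rw [mem_initSeg]
      simp only [Equiv.trans_apply, mem_filter, mem_univ, true_and]
      rw [← hτ0, Fin.lt_def]
    rw [h1]
    exact hρ e
  · intro a _ b _ h
    ext x
    have := congrArg (fun g => g x) h
    simpa using this
  · intro τ hτ
    refine ⟨τ.trans τ0.symm, ?_, ?_⟩
    · simp only [mem_filter, mem_univ, true_and] at hτ ⊢
      intro e
      have h1 : initSeg τ (τ e) =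
          univ.filter (fun f => ι ((τ.trans τ0.symm) f) < ι ((τ.trans τ0.symm) e)) := by
        ext f
        rw [mem_initSeg]
        simp only [mem_filter, mem_univ, true_and]
        rw [← hτ0, Fin.lt_def]
        simp
      rw [← h1]
      exact hτ e (τ e).2
    · ext x; simp

/-- Independence of the relative orders on a subset and its complement, combined with the
counting lemma. -/
theorem count_sigma_le {A : Type*} [Fintype A] [DecidableEq A] (p : A → Prop) {N : ℕ}
    (K : (A ≃ Fin N) → Prop)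
    (hK : ∀ (σ : A ≃ Fin N) (ρ : Equiv.Perm {x // p x}),
      K ((Equiv.Perm.ofSubtype ρ).trans σ) ↔ K σ)
    (bad : Finset {x // p x} → {x // p x} → Prop)
    (Inv : Finset {x // p x} → Prop) (Φ : Finset {x // p x} → ℝ)
    (hInv0 : Inv ∅)
    (hInvS : ∀ S e, Inv S → e ∉ S → ¬ bad S e → Inv (insert e S))
    (hstep : ∀ S, Inv S → ∑ e ∈ Sᶜ with ¬ bad S e, Φ (insert e S)
      ≤ ((Fintype.card {x // p x} : ℝ) - S.card) * Φ S)
    (hend : Inv univ → 1 ≤ Φ univ) :
    ((univ.filter (fun σ : A ≃ Fin N => K σ ∧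
        ∀ e : {x // p x}, ¬ bad (univ.filter (fun f => σ f.1 < σ e.1)) e)).card : ℝ)
      ≤ Φ ∅ * (univ.filter (fun σ : A ≃ Fin N => K σ)).card := by
  set C : (A ≃ Fin N) → Prop := fun σ =>
    ∀ e : {x // p x}, ¬ bad (univ.filter (fun f => σ f.1 < σ e.1)) e with hC
  have hfac : (0 : ℝ) < (Fintype.card {x // p x}).factorial := by positivity
  have hcardperm : ((univ : Finset (Equiv.Perm {x // p x})).card : ℝ) =
      (Fintype.card {x // p x}).factorial := by
    rw [card_univ, Fintype.card_perm]
  have hinv : ∀ ρ : Equiv.Perm {x // p x},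
      (∑ σ : A ≃ Fin N, if K σ ∧ C σ then (1 : ℝ) else 0) =
      ∑ σ : A ≃ Fin N, if K σ ∧ C ((Equiv.Perm.ofSubtype ρ).trans σ) then (1 : ℝ) else 0 := by
    intro ρ
    have hbij : Function.Bijective
        (fun σ : A ≃ Fin N => (Equiv.Perm.ofSubtype ρ).trans σ) := by
      constructor
      · intro a b h
        ext x
        have := congrArg (fun g => g ((Equiv.Perm.ofSubtype ρ).symm x)) h
        simpa using congrArg Fin.val this
      · intro b
        exact ⟨(Equiv.Perm.ofSubtype ρ).symm.trans b, by ext x; simp⟩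
    rw [← hbij.sum_comp]
    apply sum_congr rfl
    intro σ _
    simp only [hK]
  have hper : ∀ σ : A ≃ Fin N,
      (∑ ρ : Equiv.Perm {x // p x},
        if C ((Equiv.Perm.ofSubtype ρ).trans σ) then (1 : ℝ) else 0) ≤
      (Fintype.card {x // p x}).factorial * Φ ∅ := by
    intro σ
    have h := count_perm_le (fun x : {x // p x} => (σ x.1 : ℕ))
      (fun x y h => Subtype.ext (σ.injective (Fin.ext h))) bad Inv Φ hInv0 hInvS hstep hend
    refine le_trans (le_of_eq ?_) h
    rw [card_eq_sum_ones, Nat.cast_sum, sum_filter]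
    apply sum_congr rfl
    intro ρ _
    have : C ((Equiv.Perm.ofSubtype ρ).trans σ) ↔
        ∀ e, ¬ bad (univ.filter (fun f : {x // p x} =>
          ((σ (ρ f).1 : Fin N) : ℕ) < ((σ (ρ e).1 : Fin N) : ℕ))) e := by
      rw [hC]
      simp only [Equiv.trans_apply, Equiv.Perm.ofSubtype_apply_coe, Fin.lt_def]
    simp only [this, Nat.cast_one]
  have hsum : (Fintype.card {x // p x}).factorial *
      (∑ σ : A ≃ Fin N, if K σ ∧ C σ then (1 : ℝ) else 0) ≤
      (Fintype.card {x // p x}).factorial *
        (Φ ∅ * (univ.filter (fun σ : A ≃ Fin N => K σ)).card) := by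
    calc (Fintype.card {x // p x}).factorial *
        (∑ σ : A ≃ Fin N, if K σ ∧ C σ then (1 : ℝ) else 0)
        = ∑ ρ : Equiv.Perm {x // p x},
          (∑ σ : A ≃ Fin N, if K σ ∧ C σ then (1 : ℝ) else 0) := by
          rw [sum_const, nsmul_eq_mul, hcardperm]
      _ = ∑ ρ : Equiv.Perm {x // p x}, ∑ σ : A ≃ Fin N,
          if K σ ∧ C ((Equiv.Perm.ofSubtype ρ).trans σ) then (1 : ℝ) else 0 :=
          sum_congr rfl (fun ρ _ => hinv ρ)
      _ = ∑ σ : A ≃ Fin N, ∑ ρ : Equiv.Perm {x // p x},
          if K σ ∧ C ((Equiv.Perm.ofSubtype ρ).trans σ) then (1 : ℝ) else 0 := sum_comm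
      _ ≤ ∑ σ : A ≃ Fin N, if K σ then
          ((Fintype.card {x // p x}).factorial * Φ ∅ : ℝ) else 0 := by
          apply sum_le_sum
          intro σ _
          by_cases h : K σ
          · simp only [h, true_and, if_true]
            exact hper σ
          · simp [h]
      _ = _ := by
          rw [← sum_filter, sum_const, nsmul_eq_mul]
          ring
  have := le_of_mul_le_mul_left hsum hfac
  refine le_trans (le_of_eq ?_) this
  rw [card_eq_sum_ones, Nat.cast_sum, sum_filter]
  simp only [Nat.cast_one, hC]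

end Pool.Agent.H931
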